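import Mathlib

/-!
Words in four generators acting on triples of elements of an abelian group, and short words for the
powers of a unipotent matrix.
-/

set_option autoImplicit false

namespace Pool.Agent.Y212.SG

/-- The four generators. -/
inductive Gn : Type
  | T
  | a
  | b
  | s
  deriving DecidableEq

variable {G : Type*} [AddCommGroup G]

/-- The action of a generator on triples. -/
def act (g : Gn) (p : Fin 3 → G) : Fin 3 → G :=
  match g with
  | .T => ![p 0 + p 1, p 1, p 2]
  | .a => ![p 1, p 0, p 2]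
  | .b => ![p 0, p 2, p 1]
  | .s => ![p 0, -p 1, p 2]

/-- The action of a word; the first letter is applied first. -/
def acts : List Gn → (Fin 3 → G) → (Fin 3 → G)
  | [], p => p
  | g :: l, p => acts l (act g p)

@[simp] theorem acts_nil (p : Fin 3 → G) : acts [] p = p := rfl

@[simp] theorem acts_cons (g : Gn) (l : List Gn) (p : Fin 3 → G) :
    acts (g :: l) p = acts l (act g p) := rfl

theorem acts_append (l m : List Gn) (p : Fin 3 → G) : acts (l ++ m) p = acts m (acts l p) := by
  induction l generalizing p with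
  | nil => rfl
  | cons g l ih => exact ih _

omit [AddCommGroup G] in
theorem eta3 (p : Fin 3 → G) : p = ![p 0, p 1, p 2] := by
  funext i; fin_cases i <;> rfl

/-- `p₀ ↦ p₀ + k p₁`. -/
def u01 (k : ℕ) : List Gn := List.replicate k .T

theorem acts_u01 (k : ℕ) (x y z : G) : acts (u01 k) ![x, y, z] = ![x + k • y, y, z] := by
  induction k generalizing x with
  | zero => simp [u01]
  | succ k ih =>
    have : u01 (k + 1) = .T :: u01 k := by simp [u01, List.replicate_succ]
    rw [this, acts_cons]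
    have h : act Gn.T ![x, y, z] = ![x + y, y, z] := by simp [act]
    rw [h, ih, add_nsmul, one_nsmul]
    congr 1
    abel

/-- conjugation of a word by `s`. -/
def cs (l : List Gn) : List Gn := .s :: (l ++ [.s])
/-- conjugation of a word by `a`. -/
def ca (l : List Gn) : List Gn := .a :: (l ++ [.a])
/-- conjugation of a word by `b`. -/
def cb (l : List Gn) : List Gn := .b :: (l ++ [.b])

theorem acts_cs (l : List Gn) (x y z : G) :
    acts (cs l) ![x, y, z] = act .s (acts l ![x, -y, z]) := by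
  simp only [cs, acts_cons, acts_append, acts_nil]
  rfl
theorem acts_ca (l : List Gn) (x y z : G) :
    acts (ca l) ![x, y, z] = act .a (acts l ![y, x, z]) := by
  simp only [ca, acts_cons, acts_append, acts_nil]
  rfl
theorem acts_cb (l : List Gn) (x y z : G) :
    acts (cb l) ![x, y, z] = act .b (acts l ![x, z, y]) := by
  simp only [cb, acts_cons, acts_append, acts_nil]
  rfl

theorem act_s (x y z : G) : act .s ![x, y, z] = ![x, -y, z] := rfl
theorem act_a (x y z : G) : act .a ![x, y, z] = ![y, x, z] := rfl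
theorem act_b (x y z : G) : act .b ![x, y, z] = ![x, z, y] := rfl
theorem act_T (x y z : G) : act .T ![x, y, z] = ![x + y, y, z] := rfl

/-- `p₀ ↦ p₀ - k p₁`. -/
def u01' (k : ℕ) : List Gn := cs (u01 k)
/-- `p₀ ↦ p₀ + k p₂`. -/
def u02 (k : ℕ) : List Gn := cb (u01 k)
/-- `p₀ ↦ p₀ - k p₂`. -/
def u02' (k : ℕ) : List Gn := cb (u01' k)
/-- `p₁ ↦ p₁ + k p₀`. -/
def u10 (k : ℕ) : List Gn := ca (u01 k)
/-- `p₁ ↦ p₁ - k p₀`. -/
def u10' (k : ℕ) : List Gn := ca (u01' k)
/-- `p₁ ↦ p₁ + k p₂`. -/
def u12 (k : ℕ) : List Gn := ca (u02 k)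
/-- `p₂ ↦ p₂ + k p₁`. -/
def u21 (k : ℕ) : List Gn := cb (u12 k)
/-- `p₂ ↦ p₂ - k p₁`. -/
def u21' (k : ℕ) : List Gn := cs (u21 k)

theorem acts_u01' (k : ℕ) (x y z : G) : acts (u01' k) ![x, y, z] = ![x - k • y, y, z] := by
  rw [u01', acts_cs, acts_u01, act_s, neg_neg, smul_neg, ← sub_eq_add_neg]
theorem acts_u02 (k : ℕ) (x y z : G) : acts (u02 k) ![x, y, z] = ![x + k • z, y, z] := by
  rw [u02, acts_cb, acts_u01, act_b]
theorem acts_u02' (k : ℕ) (x y z : G) : acts (u02' k) ![x, y, z] = ![x - k • z, y, z] := by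
  rw [u02', acts_cb, acts_u01', act_b]
theorem acts_u10 (k : ℕ) (x y z : G) : acts (u10 k) ![x, y, z] = ![x, y + k • x, z] := by
  rw [u10, acts_ca, acts_u01, act_a]
theorem acts_u10' (k : ℕ) (x y z : G) : acts (u10' k) ![x, y, z] = ![x, y - k • x, z] := by
  rw [u10', acts_ca, acts_u01', act_a]
theorem acts_u12 (k : ℕ) (x y z : G) : acts (u12 k) ![x, y, z] = ![x, y + k • z, z] := by
  rw [u12, acts_ca, acts_u02, act_a]
theorem acts_u21 (k : ℕ) (x y z : G) : acts (u21 k) ![x, y, z] = ![x, y, z + k • y] := by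
  rw [u21, acts_cb, acts_u12, act_b]
theorem acts_u21' (k : ℕ) (x y z : G) : acts (u21' k) ![x, y, z] = ![x, y, z - k • y] := by
  rw [u21', acts_cs, acts_u21, act_s, neg_neg, smul_neg, ← sub_eq_add_neg]

/-- `p₀ ↦ p₀ + q² p₁`. -/
def s01 (q : ℕ) : List Gn := u21 q ++ (u02 q ++ (u21' q ++ u02' q))
/-- `p₁ ↦ p₁ + q² p₂`. -/
def s12 (q : ℕ) : List Gn := u02 q ++ (u10 q ++ (u02' q ++ u10' q))

theorem acts_s01 (q : ℕ) (x y z : G) :
    acts (s01 q) ![x, y, z] = ![x + (q * q) • y, y, z] := by
  rw [s01, acts_append, acts_append, acts_append, acts_u21, acts_u02, acts_u21', acts_u02',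
    add_sub_cancel_right]
  congr 1
  rw [mul_smul, smul_add]; abel

theorem acts_s12 (q : ℕ) (x y z : G) :
    acts (s12 q) ![x, y, z] = ![x, y + (q * q) • z, z] := by
  rw [s12, acts_append, acts_append, acts_append, acts_u02, acts_u10, acts_u02', acts_u10']
  congr 1
  · abel
  · congr 1
    rw [mul_smul, smul_add, add_sub_cancel_right]; abel

/-- `p₀ ↦ p₀ + m p₁`. -/
def v01 (m : ℕ) : List Gn := s01 (Nat.sqrt m) ++ u01 (m - Nat.sqrt m * Nat.sqrt m)
/-- `p₁ ↦ p₁ + m p₂`. -/
def v12 (m : ℕ) : List Gn := s12 (Nat.sqrt m) ++ u12 (m - Nat.sqrt m * Nat.sqrt m)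

theorem acts_v01 (m : ℕ) (x y z : G) : acts (v01 m) ![x, y, z] = ![x + m • y, y, z] := by
  rw [v01, acts_append, acts_s01, acts_u01, add_assoc, ← add_smul,
    Nat.add_sub_cancel' (Nat.sqrt_le m)]

theorem acts_v12 (m : ℕ) (x y z : G) : acts (v12 m) ![x, y, z] = ![x, y + m • z, z] := by
  rw [v12, acts_append, acts_s12, acts_u12, add_assoc, ← add_smul,
    Nat.add_sub_cancel' (Nat.sqrt_le m)]

/-- `p₀ ↦ p₀ + k m p₂`. -/
def w02 (k m : ℕ) : List Gn := v12 m ++ (v01 k ++ (cs (v12 m) ++ cs (v01 k)))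

theorem acts_w02 (k m : ℕ) (x y z : G) :
    acts (w02 k m) ![x, y, z] = ![x + (k * m) • z, y, z] := by
  have hY : -(-(y + m • z) + m • z) = y := by abel
  rw [w02, acts_append, acts_append, acts_append, acts_v12, acts_v01, acts_cs, acts_v12, act_s,
    acts_cs, hY, acts_v01, act_s, neg_neg, smul_neg, smul_add, mul_smul]
  congr 1
  abel

/-- The word of the map `f`: `(p₀, p₁, p₂) ↦ (p₀ + p₁ + p₂, p₁ + p₂, p₂)`. -/
def fw : List Gn := [.a, .b, .T, .b, .a, .T]

theorem acts_fw (x y z : G) : acts fw ![x, y, z] = ![x + (y + z), y + z, z] := by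
  simp only [fw, acts_cons, acts_nil, act_a, act_b, act_T]

theorem iterate_fw (n : ℕ) (x y z : G) :
    (acts fw)^[n] ![x, y, z] = ![x + n • y + (n * (n + 1) / 2) • z, y + n • z, z] := by
  induction n with
  | zero => simp
  | succ n ih =>
    rw [Function.iterate_succ_apply', ih, acts_fw]
    have h : (n + 1) * (n + 1 + 1) / 2 = n * (n + 1) / 2 + (n + 1) := by
      have e : (n + 1) * (n + 1 + 1) = n * (n + 1) + (n + 1) * 2 := by ring
      rw [e, Nat.add_mul_div_right _ _ (by norm_num)]
    rw [h]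
    congr 1
    · simp only [add_smul, one_smul]; abel
    · congr 1
      simp only [add_smul, one_smul]; abel

/-- a short word for the `n`-th power of `f`. -/
def pw (n : ℕ) : List Gn :=
  v01 n ++ ((if n % 2 = 0 then w02 (n / 2) (n + 1) else w02 n ((n + 1) / 2)) ++ v12 n)

theorem acts_pw (n : ℕ) (p : Fin 3 → G) : acts (pw n) p = (acts fw)^[n] p := by
  rw [eta3 p, iterate_fw, pw, acts_append, acts_append, acts_v01]
  split_ifs with h
  · rw [acts_w02, acts_v12]
    have e : n / 2 * (n + 1) = n * (n + 1) / 2 := by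
      rw [Nat.div_mul_right_comm (Nat.dvd_of_mod_eq_zero h)]
    rw [e]
  · rw [acts_w02, acts_v12]
    have h' : 2 ∣ n + 1 := by omega
    rw [← Nat.mul_div_assoc _ h']

/-! lengths -/

theorem len_u01 (k : ℕ) : (u01 k).length = k := by simp [u01]
theorem len_cs (l : List Gn) : (cs l).length = l.length + 2 := by simp [cs]
theorem len_ca (l : List Gn) : (ca l).length = l.length + 2 := by simp [ca]
theorem len_cb (l : List Gn) : (cb l).length = l.length + 2 := by simp [cb]

theorem len_s01 (q : ℕ) : (s01 q).length = 4 * q + 20 := by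
  simp only [s01, List.length_append, u21, u21', u12, u02, u02', u01', len_cs, len_ca, len_cb,
    len_u01]
  ring

theorem len_s12 (q : ℕ) : (s12 q).length = 4 * q + 12 := by
  simp only [s12, List.length_append, u10, u10', u02, u02', u01', len_cs, len_ca, len_cb,
    len_u01]
  ring

theorem len_v01 (m : ℕ) : (v01 m).length ≤ 6 * Nat.sqrt m + 20 := by
  have h := Nat.sqrt_le_add m
  rw [v01, List.length_append, len_s01, len_u01]
  omega

theorem len_v12 (m : ℕ) : (v12 m).length ≤ 6 * Nat.sqrt m + 20 := by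
  have h := Nat.sqrt_le_add m
  rw [v12, List.length_append, len_s12, u12, u02, len_ca, len_cb, len_u01]
  omega

theorem len_pw (n : ℕ) : (pw n).length ≤ 36 * Nat.sqrt (n + 1) + 130 := by
  have hm : ∀ k, k ≤ n + 1 → Nat.sqrt k ≤ Nat.sqrt (n + 1) := fun k hk => Nat.sqrt_le_sqrt hk
  have hw : ∀ k m, k ≤ n + 1 → m ≤ n + 1 →
      (w02 k m).length ≤ 24 * Nat.sqrt (n + 1) + 84 := by
    intro k m hk hm'
    have h1 := len_v01 k
    have h2 := len_v12 m
    have h3 := hm k hk
    have h4 := hm m hm'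
    rw [w02, List.length_append, List.length_append, List.length_append, len_cs, len_cs]
    omega
  have h1 := len_v01 n
  have h2 := len_v12 n
  have h3 := hm n (by omega)
  rw [pw, List.length_append, List.length_append]
  split_ifs with h
  · have h4 := hw (n / 2) (n + 1) (by omega) le_rfl
    omega
  · have h4 := hw n ((n + 1) / 2) (by omega) (by omega)
    omega

end Pool.Agent.Y212.SG
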