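import Pool.Agent.Y212.SG.Form

/-!
The formulas for the generators compute the action on triples of points of `y² = x³ + e`.
-/

set_option autoImplicit false

open WeierstrassCurve

namespace Pool.Agent.Y212.SG

/-- `W` is of the form `y² = x³ + a₆`. -/
structure Sh {F : Type*} [Field F] (W : Affine F) : Prop where
  a1 : W.a₁ = 0
  a2 : W.a₂ = 0
  a3 : W.a₃ = 0
  a4 : W.a₄ = 0

variable {F : Type*} [Field F] [DecidableEq F] {W : Affine F}

/-- first coordinate -/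
def xc : W.Point → F
  | .zero => 0
  | .some x _ _ => x

/-- second coordinate -/
def yc : W.Point → F
  | .zero => 0
  | .some _ y _ => y

omit [DecidableEq F] in
theorem eqn (hW : Sh W) (P : W.Point) (hP : P ≠ 0) : yc P ^ 2 = xc P ^ 3 + W.a₆ := by
  rcases P with _ | ⟨x, y, h⟩
  · exact absurd rfl hP
  · have := (Affine.equation_iff x y).1 h.1
    rw [hW.a1, hW.a2, hW.a3, hW.a4] at this
    simp only [xc, yc]
    linear_combination this

omit [DecidableEq F] in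
theorem xc_neg (P : W.Point) : xc (-P) = xc P := by
  rcases P with _ | ⟨x, y, h⟩ <;> rfl

omit [DecidableEq F] in
theorem yc_neg (hW : Sh W) (P : W.Point) : yc (-P) = -yc P := by
  rcases P with _ | ⟨x, y, h⟩
  · simp [yc, ← Affine.Point.zero_def]
  · rw [Affine.Point.neg_some]
    simp only [yc, Affine.negY, hW.a1, hW.a3]
    ring

omit [DecidableEq F] in
theorem point_eq_or (P Q : W.Point) (hP : P ≠ 0) (hQ : Q ≠ 0) (h : xc P = xc Q) :
    P = Q ∨ P = -Q := by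
  rcases P with _ | ⟨x, y, h1⟩
  · exact absurd rfl hP
  rcases Q with _ | ⟨x', y', h2⟩
  · exact absurd rfl hQ
  exact Affine.Point.X_eq_iff.1 h

theorem add_coord (hW : Sh W) (P Q : W.Point) (hP : P ≠ 0) (hQ : Q ≠ 0) (h : xc P ≠ xc Q) :
    P + Q ≠ 0 ∧
    xc (P + Q) * (xc P - xc Q) ^ 2 = (yc P - yc Q) ^ 2 - (xc P + xc Q) * (xc P - xc Q) ^ 2 ∧
    yc (P + Q) * (xc P - xc Q) =
      (yc P - yc Q) * (xc P - xc (P + Q)) - yc P * (xc P - xc Q) := by
  rcases P with _ | ⟨x, y, h1⟩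
  · exact absurd rfl hP
  rcases Q with _ | ⟨x', y', h2⟩
  · exact absurd rfl hQ
  have hx : x ≠ x' := h
  have h0 : x - x' ≠ 0 := sub_ne_zero.2 hx
  rw [Affine.Point.add_of_X_ne hx]
  refine ⟨Affine.Point.some_ne_zero _, ?_, ?_⟩
  · simp only [xc, yc, Affine.addX, Affine.slope_of_X_ne hx, hW.a1, hW.a2]
    field_simp
    ring
  · simp only [xc, yc, Affine.addY, Affine.negAddY, Affine.negY, Affine.addX,
      Affine.slope_of_X_ne hx, hW.a1, hW.a2, hW.a3]
    field_simp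
    ring

/-- The coordinates of a triple of points. -/
def gam (p : Fin 3 → W.Point) : Fin 4 → F :=
  ![xc (p 0) * (yc (p 1) - yc (p 0)), xc (p 1) * (yc (p 1) - yc (p 0)),
    xc (p 2) * (yc (p 1) - yc (p 0)), xc (p 0) * (yc (p 2) - yc (p 0))]

/-- Good triples of points. -/
structure Good (p : Fin 3 → W.Point) : Prop where
  ne : ∀ i, p i ≠ 0
  x0 : ∀ i, xc (p i) ≠ 0
  y2 : ∀ i j, i ≠ j → yc (p i) ^ 2 ≠ yc (p j) ^ 2

/-- the scalar -/
def mu (p : Fin 3 → W.Point) : F :=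
  -2 * xc (p 0) ^ 2 * (yc (p 1) - yc (p 0)) ^ 4 * (yc (p 2) - yc (p 0)) * (yc (p 2) - yc (p 1))

omit [DecidableEq F] in
theorem yv_gam (hW : Sh W) (p : Fin 3 → W.Point) (hp : ∀ i, p i ≠ 0) (i : Fin 3) :
    yv (gam p) i = mu p * yc (p i) := by
  have h0 := eqn hW _ (hp 0)
  have h1 := eqn hW _ (hp 1)
  have h2 := eqn hW _ (hp 2)
  have g0 : (gam p) 0 = xc (p 0) * (yc (p 1) - yc (p 0)) := rfl
  have g1 : (gam p) 1 = xc (p 1) * (yc (p 1) - yc (p 0)) := rfl
  have g2 : (gam p) 2 = xc (p 2) * (yc (p 1) - yc (p 0)) := rfl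
  have g3 : (gam p) 3 = xc (p 0) * (yc (p 2) - yc (p 0)) := rfl
  set x0 := xc (p 0)
  set x1 := xc (p 1)
  set x2 := xc (p 2)
  set y0 := yc (p 0)
  set y1 := yc (p 1)
  set y2 := yc (p 2)
  have e01 : gam p 0 ^ 3 - gam p 1 ^ 3 = (y1 - y0) ^ 3 * (y0 ^ 2 - y1 ^ 2) := by
    rw [g0, g1]; linear_combination (y1 - y0) ^ 3 * (h1 - h0)
  have e02 : gam p 0 ^ 3 - gam p 2 ^ 3 = (y1 - y0) ^ 3 * (y0 ^ 2 - y2 ^ 2) := by
    rw [g0, g2]; linear_combination (y1 - y0) ^ 3 * (h2 - h0)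
  have hd : dU (gam p) = mu p * y0 := by
    simp only [dU, mu]
    rw [e01, e02, g0, g3]
    ring
  have hn : nU (gam p) * x0 = mu p := by
    simp only [nU, mu]
    rw [e01, e02, g0, g3]
    ring
  fin_cases i
  · exact hd
  · change dU (gam p) + nU (gam p) * gam p 0 = mu p * y1
    rw [hd, g0]
    linear_combination (y1 - y0) * hn
  · change dU (gam p) + nU (gam p) * gam p 3 = mu p * y2
    rw [hd, g3]
    linear_combination (y2 - y0) * hn

omit [DecidableEq F] in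
theorem Good.x_ne (hW : Sh W) {p : Fin 3 → W.Point} (hp : Good p) {i j : Fin 3} (hij : i ≠ j) :
    xc (p i) ≠ xc (p j) := by
  intro h
  refine hp.y2 i j hij ?_
  rw [eqn hW _ (hp.ne i), eqn hW _ (hp.ne j), h]

omit [DecidableEq F] in
theorem Good.y_sub {p : Fin 3 → W.Point} (hp : Good p) {i j : Fin 3} (hij : i ≠ j) :
    yc (p i) - yc (p j) ≠ 0 := by
  intro h
  exact hp.y2 i j hij (by rw [sub_eq_zero.1 h])

omit [DecidableEq F] in
theorem Good.y_add {p : Fin 3 → W.Point} (hp : Good p) {i j : Fin 3} (hij : i ≠ j) :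
    yc (p i) + yc (p j) ≠ 0 := by
  intro h
  exact hp.y2 i j hij (by rw [eq_neg_of_add_eq_zero_left h]; ring)

omit [DecidableEq F] in
theorem mu_ne (h2 : (2 : F) ≠ 0) {p : Fin 3 → W.Point} (hp : Good p) : mu p ≠ 0 := by
  have h10 := hp.y_sub (show (1 : Fin 3) ≠ 0 by decide)
  have h20 := hp.y_sub (show (2 : Fin 3) ≠ 0 by decide)
  have h21 := hp.y_sub (show (2 : Fin 3) ≠ 1 by decide)
  have hx := hp.x0 0
  unfold mu
  simp only [ne_eq, mul_eq_zero, neg_eq_zero, pow_eq_zero_iff, OfNat.ofNat_ne_zero,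
    not_false_eq_true, not_or]
  exact ⟨⟨⟨⟨h2, hx⟩, h10⟩, h20⟩, h21⟩

omit [DecidableEq F] in
theorem gam_ne {p : Fin 3 → W.Point} (hp : Good p) (i : Fin 3) : gam p (i.castSucc) ≠ 0 := by
  have h10 := hp.y_sub (show (1 : Fin 3) ≠ 0 by decide)
  fin_cases i
  · exact mul_ne_zero (hp.x0 0) h10
  · exact mul_ne_zero (hp.x0 1) h10
  · exact mul_ne_zero (hp.x0 2) h10

theorem rep_gam (hW : Sh W) (h2 : (2 : F) ≠ 0) (g : Gn) (p : Fin 3 → W.Point) (hp : Good p) :
    ∃ c : F, c ≠ 0 ∧ rep g (gam p) = c • gam (act g p) := by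
  have hmu := mu_ne h2 hp
  have h10 := hp.y_sub (show (1 : Fin 3) ≠ 0 by decide)
  have h20 := hp.y_sub (show (2 : Fin 3) ≠ 0 by decide)
  have hyv0 := yv_gam hW p hp.ne 0
  have hyv1 := yv_gam hW p hp.ne 1
  have hyv2 := yv_gam hW p hp.ne 2
  have g0 : (gam p) 0 = xc (p 0) * (yc (p 1) - yc (p 0)) := rfl
  have g1 : (gam p) 1 = xc (p 1) * (yc (p 1) - yc (p 0)) := rfl
  have g2 : (gam p) 2 = xc (p 2) * (yc (p 1) - yc (p 0)) := rfl
  have g3 : (gam p) 3 = xc (p 0) * (yc (p 2) - yc (p 0)) := rfl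
  cases g with
  | a =>
    refine ⟨mu p * (yc (p 1) - yc (p 0)), mul_ne_zero hmu h10, ?_⟩
    funext i
    fin_cases i
    · change gam p 1 * (yv (gam p) 0 - yv (gam p) 1) = _ * (xc (p 1) * (yc (p 0) - yc (p 1)))
      rw [g1, hyv0, hyv1]; ring
    · change gam p 0 * (yv (gam p) 0 - yv (gam p) 1) = _ * (xc (p 0) * (yc (p 0) - yc (p 1)))
      rw [g0, hyv0, hyv1]; ring
    · change gam p 2 * (yv (gam p) 0 - yv (gam p) 1) = _ * (xc (p 2) * (yc (p 0) - yc (p 1)))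
      rw [g2, hyv0, hyv1]; ring
    · change gam p 1 * (yv (gam p) 2 - yv (gam p) 1) = _ * (xc (p 1) * (yc (p 2) - yc (p 1)))
      rw [g1, hyv2, hyv1]; ring
  | b =>
    refine ⟨xc (p 0) * (yc (p 1) - yc (p 0)), mul_ne_zero (hp.x0 0) h10, ?_⟩
    funext i
    fin_cases i
    · change gam p 0 * gam p 3 = _ * (xc (p 0) * (yc (p 2) - yc (p 0)))
      rw [g0, g3]
    · change gam p 2 * gam p 3 = _ * (xc (p 2) * (yc (p 2) - yc (p 0)))
      rw [g2, g3]; ring
    · change gam p 1 * gam p 3 = _ * (xc (p 1) * (yc (p 2) - yc (p 0)))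
      rw [g1, g3]; ring
    · change gam p 0 ^ 2 = _ * (xc (p 0) * (yc (p 1) - yc (p 0)))
      rw [g0]; ring
  | s =>
    refine ⟨mu p * (yc (p 1) - yc (p 0)), mul_ne_zero hmu h10, ?_⟩
    have hy := yc_neg hW (p 1)
    have hx := xc_neg (p 1)
    funext i
    fin_cases i
    · change -gam p 0 * (yv (gam p) 1 + yv (gam p) 0) = _ * (xc (p 0) * (yc (-p 1) - yc (p 0)))
      rw [g0, hyv0, hyv1, hy]; ring
    · change -gam p 1 * (yv (gam p) 1 + yv (gam p) 0) = _ * (xc (-p 1) * (yc (-p 1) - yc (p 0)))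
      rw [g1, hyv0, hyv1, hy, hx]; ring
    · change -gam p 2 * (yv (gam p) 1 + yv (gam p) 0) = _ * (xc (p 2) * (yc (-p 1) - yc (p 0)))
      rw [g2, hyv0, hyv1, hy]; ring
    · change gam p 0 * (yv (gam p) 2 - yv (gam p) 0) = _ * (xc (p 0) * (yc (p 2) - yc (p 0)))
      rw [g0, hyv0, hyv2]; ring
  | T =>
    have hx01 := hp.x_ne hW (show (0 : Fin 3) ≠ 1 by decide)
    have hs01 : xc (p 0) - xc (p 1) ≠ 0 := sub_ne_zero.2 hx01
    have hy01 := hp.y_add (show (0 : Fin 3) ≠ 1 by decide)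
    obtain ⟨-, ax, ay⟩ := add_coord hW (p 0) (p 1) (hp.ne 0) (hp.ne 1) hx01
    have e0 := eqn hW _ (hp.ne 0)
    have e1' := eqn hW _ (hp.ne 1)
    set k := yc (p 1) - yc (p 0) with hk
    have hnX : nX (gam p) = xc (p 0 + p 1) * k * dX (gam p) := by
      have key : xc (p 1) * (xc (p 0) + 2 * xc (p 1)) * yc (p 0) -
          xc (p 0) * (2 * xc (p 0) + xc (p 1)) * yc (p 1) =
          xc (p 0 + p 1) * ((xc (p 0) - xc (p 1)) * (yc (p 0) + yc (p 1))) := by
        apply mul_right_cancel₀ hs01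
        linear_combination -(yc (p 0) + yc (p 1)) * ax + (yc (p 0) - yc (p 1)) * (e1' - e0)
      simp only [nX, dX]
      rw [hyv0, hyv1, g0, g1]
      linear_combination k ^ 2 * mu p * key
    have hnY : nY (gam p) = mu p * yc (p 0 + p 1) * dY (gam p) := by
      have key : -(3 * xc (p 1) ^ 2 * yc (p 0) ^ 2 - (xc (p 0) ^ 2 + 4 * xc (p 0) * xc (p 1) +
          xc (p 1) ^ 2) * yc (p 1) * yc (p 0) + 3 * xc (p 0) ^ 2 * yc (p 1) ^ 2) =
          yc (p 0 + p 1) * ((xc (p 0) - xc (p 1)) ^ 2 * (yc (p 0) + yc (p 1))) := by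
        apply mul_right_cancel₀ hs01
        linear_combination -(xc (p 0) - xc (p 1)) ^ 2 * (yc (p 0) + yc (p 1)) * ay +
          (yc (p 0) + yc (p 1)) * (yc (p 0) - yc (p 1)) * ax +
          (yc (p 0) - yc (p 1)) ^ 2 * (e0 - e1')
      simp only [nY, dY]
      rw [hyv0, hyv1, g0, g1]
      linear_combination k ^ 2 * mu p ^ 2 * key
    refine ⟨dX (gam p) * dY (gam p) * mu p * k, ?_, ?_⟩
    · refine mul_ne_zero (mul_ne_zero (mul_ne_zero ?_ ?_) hmu) h10
      · simp only [dX]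
        rw [hyv0, hyv1, g0, g1]
        have : (xc (p 0) * k - xc (p 1) * k) * (mu p * yc (p 0) + mu p * yc (p 1)) =
            (xc (p 0) - xc (p 1)) * k * mu p * (yc (p 0) + yc (p 1)) := by ring
        rw [this]
        exact mul_ne_zero (mul_ne_zero (mul_ne_zero hs01 h10) hmu) hy01
      · simp only [dY]
        rw [hyv0, hyv1, g0, g1]
        have : (xc (p 0) * k - xc (p 1) * k) ^ 2 * (mu p * yc (p 0) + mu p * yc (p 1)) =
            ((xc (p 0) - xc (p 1)) * k) ^ 2 * mu p * (yc (p 0) + yc (p 1)) := by ring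
        rw [this]
        exact mul_ne_zero (mul_ne_zero (pow_ne_zero _ (mul_ne_zero hs01 h10)) hmu) hy01
    · have he1 : e1 (gam p) = dY (gam p) * mu p * (yc (p 1) - yc (p 0 + p 1)) := by
        simp only [e1]
        rw [hyv1, hnY]; ring
      have he2 : e2 (gam p) = dY (gam p) * mu p * (yc (p 2) - yc (p 0 + p 1)) := by
        simp only [e2]
        rw [hyv2, hnY]; ring
      funext i
      fin_cases i
      · change nX (gam p) * e1 (gam p) =
          _ * (xc (p 0 + p 1) * (yc (p 1) - yc (p 0 + p 1)))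
        rw [hnX, he1]; ring
      · change gam p 1 * dX (gam p) * e1 (gam p) =
          _ * (xc (p 1) * (yc (p 1) - yc (p 0 + p 1)))
        rw [he1, g1]; ring
      · change gam p 2 * dX (gam p) * e1 (gam p) =
          _ * (xc (p 2) * (yc (p 1) - yc (p 0 + p 1)))
        rw [he1, g2]; ring
      · change nX (gam p) * e2 (gam p) =
          _ * (xc (p 0 + p 1) * (yc (p 2) - yc (p 0 + p 1)))
        rw [hnX, he2]; ring

end Pool.Agent.Y212.SG
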