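import Pool.Agent.Y212.SG.Main

/-!
The asymptotic behaviour of the degrees.
-/

set_option autoImplicit false

open Filter Topology

namespace Pool.Agent.Y212.SG

theorem tendsto_root {e : ℕ → ℕ} (h1 : ∀ n, 1 ≤ e n)
    (hup : ∀ n, e n ≤ 19 ^ (36 * Nat.sqrt (n + 1) + 130)) :
    Tendsto (fun n : ℕ => (e n : ℝ) ^ (1 / (n : ℝ))) atTop (𝓝 1) := by
  have hlim : Tendsto (fun n : ℕ => (19 : ℝ) ^ (200 / Real.sqrt (n : ℝ))) atTop (𝓝 1) := by
    have h0 : Tendsto (fun n : ℕ => (200 : ℝ) / Real.sqrt (n : ℝ)) atTop (𝓝 0) :=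
      tendsto_const_nhds.div_atTop (Real.tendsto_sqrt_atTop.comp tendsto_natCast_atTop_atTop)
    have h2 := (tendsto_const_nhds (x := (19 : ℝ)) (f := (atTop : Filter ℕ))).rpow h0
      (Or.inl (by norm_num))
    rwa [Real.rpow_zero] at h2
  refine tendsto_of_tendsto_of_tendsto_of_le_of_le' tendsto_const_nhds hlim ?_ ?_
  · filter_upwards with n
    exact Real.one_le_rpow (by exact_mod_cast h1 n) (by positivity)
  · filter_upwards [eventually_ge_atTop 1] with n hn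
    have hn1 : (1 : ℝ) ≤ n := by exact_mod_cast hn
    have hn0 : (0 : ℝ) < n := by linarith
    have hs : 0 < Real.sqrt n := Real.sqrt_pos.2 hn0
    have hs1 : 1 ≤ Real.sqrt n := by
      rw [show (1 : ℝ) = Real.sqrt 1 by simp]
      exact Real.sqrt_le_sqrt hn1
    have hss : Real.sqrt n * Real.sqrt n = n := Real.mul_self_sqrt hn0.le
    have hsq : (Nat.sqrt (n + 1) : ℝ) ≤ 3 / 2 * Real.sqrt n := by
      have h3 : (Nat.sqrt (n + 1) : ℝ) ≤ Real.sqrt ((n + 1 : ℕ) : ℝ) := Real.nat_sqrt_le_real_sqrt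
      refine h3.trans (Real.sqrt_le_iff.2 ⟨by positivity, ?_⟩)
      push_cast
      nlinarith
    have hE : ((36 * Nat.sqrt (n + 1) + 130 : ℕ) : ℝ) / n ≤ 200 / Real.sqrt n := by
      rw [div_le_div_iff₀ hn0 hs]
      push_cast
      nlinarith [mul_le_mul_of_nonneg_right hsq hs.le]
    calc (e n : ℝ) ^ (1 / (n : ℝ))
        ≤ ((19 : ℝ) ^ (36 * Nat.sqrt (n + 1) + 130 : ℕ)) ^ (1 / (n : ℝ)) := by
          apply Real.rpow_le_rpow (by positivity) _ (by positivity)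
          exact_mod_cast hup n
      _ = (19 : ℝ) ^ (((36 * Nat.sqrt (n + 1) + 130 : ℕ) : ℝ) / n) := by
          rw [← Real.rpow_natCast, ← Real.rpow_mul (by norm_num), mul_one_div]
      _ ≤ (19 : ℝ) ^ (200 / Real.sqrt n) := Real.rpow_le_rpow_of_exponent_le (by norm_num) hE

theorem pos_of_low {e : ℕ → ℕ} {B : ℕ}
    (hlow : ∀ n, (4 + 2 * n + n * (n + 1) / 2) ^ 2 ≤ e n * B + (2 + n) ^ 2) :
    0 < B ∧ (∀ n, 1 ≤ e n) ∧ ∀ n : ℕ, 1 / (4 * (B : ℝ)) * (n : ℝ) ^ 4 ≤ e n := by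
  have key : ∀ n, n ^ 4 ≤ 4 * (e n * B) ∧ 1 ≤ e n * B := by
    intro n
    have h := hlow n
    obtain ⟨q, hq⟩ : ∃ q, n * (n + 1) = 2 * q := by
      obtain ⟨q, hq⟩ := (Nat.even_mul_succ_self n).two_dvd
      exact ⟨q, hq⟩
    rw [hq, Nat.mul_div_cancel_left _ (by norm_num)] at h
    have h1 : n ^ 2 ≤ 2 * q := by nlinarith
    have h2 : n ^ 4 ≤ 4 * q ^ 2 := by
      calc n ^ 4 = (n ^ 2) ^ 2 := by ring
        _ ≤ (2 * q) ^ 2 := Nat.pow_le_pow_left h1 2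
        _ = 4 * q ^ 2 := by ring
    constructor <;> nlinarith
  have hB : 0 < B := by
    by_contra hB
    have hB0 : B = 0 := by omega
    have := (key 0).2
    rw [hB0, mul_zero] at this
    omega
  refine ⟨hB, fun n => ?_, fun n => ?_⟩
  · have := (key n).2
    by_contra h
    have h0 : e n = 0 := by omega
    rw [h0, zero_mul] at this
    omega
  · have h1 : (n : ℝ) ^ 4 ≤ 4 * (e n * B) := by exact_mod_cast (key n).1
    have hB' : (0 : ℝ) < B := by exact_mod_cast hB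
    rw [div_mul_eq_mul_div, one_mul, div_le_iff₀ (by positivity)]
    linarith

theorem not_comparable {e : ℕ → ℕ} {c : ℝ} (hc : 0 < c) (hlow : ∀ n : ℕ, c * (n : ℝ) ^ 4 ≤ e n)
    {l : ℕ} (hl : l ≤ 3) :
    ¬ ∃ c₁ c₂ c₃ : ℝ, 0 < c₁ ∧ 0 < c₂ ∧ 0 < c₃ ∧ ∀ n : ℕ, c₃ ≤ n →
      c₁ * (e n : ℝ) ≤ (n : ℝ) ^ l * (1 : ℝ) ^ n ∧ (n : ℝ) ^ l * (1 : ℝ) ^ n ≤ c₂ * (e n : ℝ) := by
  rintro ⟨c₁, c₂, c₃, h1, h2, h3, h⟩
  obtain ⟨n, hn⟩ := exists_nat_gt (max c₃ (max 1 (1 / (c₁ * c))))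
  have hn3 : c₃ < n := (le_max_left _ _).trans_lt hn
  have hn1 : (1 : ℝ) < n := ((le_max_left _ _).trans (le_max_right _ _)).trans_lt hn
  have hnc : 1 / (c₁ * c) < n := ((le_max_right _ _).trans (le_max_right _ _)).trans_lt hn
  have h4 := (h n hn3.le).1
  rw [one_pow, mul_one] at h4
  have h5 : (n : ℝ) ^ l ≤ (n : ℝ) ^ 3 := pow_le_pow_right₀ hn1.le hl
  have h6 : c₁ * (c * (n : ℝ) ^ 4) ≤ (n : ℝ) ^ 3 :=
    (mul_le_mul_of_nonneg_left (hlow n) h1.le).trans (h4.trans h5)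
  rw [div_lt_iff₀ (by positivity)] at hnc
  have h7 : (0 : ℝ) < (n : ℝ) ^ 3 := by positivity
  nlinarith

end Pool.Agent.Y212.SG
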