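import Pool.Agent.Y212.SG.Act

/-!
Coordinates on the quotient of the third power of the curves `y² = x³ + e` by the scalings, and
formulas for the action of the generators.
-/

set_option autoImplicit false

open MvPolynomial

namespace Pool.Agent.Y212.SG

section Forms

variable {R S : Type*} [CommRing R] [CommRing S]

/-- first auxiliary form (degree 5) -/
def dU (Z : Fin 4 → R) : R :=
  (Z 0 ^ 3 - Z 1 ^ 3) * Z 3 ^ 2 - (Z 0 ^ 3 - Z 2 ^ 3) * Z 0 ^ 2
/-- second auxiliary form (degree 4) -/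
def nU (Z : Fin 4 → R) : R :=
  2 * ((Z 0 ^ 3 - Z 2 ^ 3) * Z 0 - (Z 0 ^ 3 - Z 1 ^ 3) * Z 3)

/-- the three forms of degree 5 proportional to `y₀, y₁, y₂` -/
def yv (Z : Fin 4 → R) : Fin 3 → R := ![dU Z, dU Z + nU Z * Z 0, dU Z + nU Z * Z 3]

/-- form of degree 7 -/
def nX (Z : Fin 4 → R) : R :=
  Z 1 * (Z 0 + 2 * Z 1) * yv Z 0 - Z 0 * (2 * Z 0 + Z 1) * yv Z 1
/-- form of degree 6 -/
def dX (Z : Fin 4 → R) : R := (Z 0 - Z 1) * (yv Z 0 + yv Z 1)
/-- form of degree 12 -/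
def nY (Z : Fin 4 → R) : R :=
  -(3 * Z 1 ^ 2 * yv Z 0 ^ 2 - (Z 0 ^ 2 + 4 * Z 0 * Z 1 + Z 1 ^ 2) * yv Z 1 * yv Z 0 +
    3 * Z 0 ^ 2 * yv Z 1 ^ 2)
/-- form of degree 7 -/
def dY (Z : Fin 4 → R) : R := (Z 0 - Z 1) ^ 2 * (yv Z 0 + yv Z 1)
/-- form of degree 12 -/
def e1 (Z : Fin 4 → R) : R := yv Z 1 * dY Z - nY Z
/-- form of degree 12 -/
def e2 (Z : Fin 4 → R) : R := yv Z 2 * dY Z - nY Z

/-- The formulas for the generators. -/
def rep (g : Gn) (Z : Fin 4 → R) : Fin 4 → R :=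
  match g with
  | .T => ![nX Z * e1 Z, Z 1 * dX Z * e1 Z, Z 2 * dX Z * e1 Z, nX Z * e2 Z]
  | .a => ![Z 1 * (yv Z 0 - yv Z 1), Z 0 * (yv Z 0 - yv Z 1), Z 2 * (yv Z 0 - yv Z 1),
      Z 1 * (yv Z 2 - yv Z 1)]
  | .b => ![Z 0 * Z 3, Z 2 * Z 3, Z 1 * Z 3, Z 0 ^ 2]
  | .s => ![-Z 0 * (yv Z 1 + yv Z 0), -Z 1 * (yv Z 1 + yv Z 0), -Z 2 * (yv Z 1 + yv Z 0),
      Z 0 * (yv Z 2 - yv Z 0)]

/-- The formulas for words. -/
def reps : List Gn → (Fin 4 → R) → (Fin 4 → R)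
  | [], Z => Z
  | g :: l, Z => reps l (rep g Z)

theorem map_dU (φ : R →+* S) (Z : Fin 4 → R) : φ (dU Z) = dU (fun i => φ (Z i)) := by
  simp only [dU, map_sub, map_mul, map_pow]
theorem map_nU (φ : R →+* S) (Z : Fin 4 → R) : φ (nU Z) = nU (fun i => φ (Z i)) := by
  simp only [nU, map_sub, map_mul, map_pow, map_ofNat]
theorem map_yv (φ : R →+* S) (Z : Fin 4 → R) (i : Fin 3) :
    φ (yv Z i) = yv (fun i => φ (Z i)) i := by
  fin_cases i
  · exact map_dU φ Z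
  · change φ (dU Z + nU Z * Z 0) = dU (fun i => φ (Z i)) + nU (fun i => φ (Z i)) * φ (Z 0)
    rw [map_add, map_mul, map_dU, map_nU]
  · change φ (dU Z + nU Z * Z 3) = dU (fun i => φ (Z i)) + nU (fun i => φ (Z i)) * φ (Z 3)
    rw [map_add, map_mul, map_dU, map_nU]
theorem map_nX (φ : R →+* S) (Z : Fin 4 → R) : φ (nX Z) = nX (fun i => φ (Z i)) := by
  simp only [nX, map_sub, map_add, map_mul, map_pow, map_ofNat, map_yv]
theorem map_dX (φ : R →+* S) (Z : Fin 4 → R) : φ (dX Z) = dX (fun i => φ (Z i)) := by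
  simp only [dX, map_sub, map_add, map_mul, map_pow, map_ofNat, map_yv]
theorem map_nY (φ : R →+* S) (Z : Fin 4 → R) : φ (nY Z) = nY (fun i => φ (Z i)) := by
  simp only [nY, map_neg, map_sub, map_add, map_mul, map_pow, map_ofNat, map_yv]
theorem map_dY (φ : R →+* S) (Z : Fin 4 → R) : φ (dY Z) = dY (fun i => φ (Z i)) := by
  simp only [dY, map_sub, map_add, map_mul, map_pow, map_ofNat, map_yv]
theorem map_e1 (φ : R →+* S) (Z : Fin 4 → R) : φ (e1 Z) = e1 (fun i => φ (Z i)) := by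
  simp only [e1, map_sub, map_mul, map_yv, map_dY, map_nY]
theorem map_e2 (φ : R →+* S) (Z : Fin 4 → R) : φ (e2 Z) = e2 (fun i => φ (Z i)) := by
  simp only [e2, map_sub, map_mul, map_yv, map_dY, map_nY]

theorem map_rep (φ : R →+* S) (g : Gn) (Z : Fin 4 → R) :
    (fun i => φ (rep g Z i)) = rep g (fun i => φ (Z i)) := by
  funext i
  cases g <;> fin_cases i <;>
    simp [rep, map_yv, map_nX, map_dX, map_e1, map_e2]

theorem map_reps (φ : R →+* S) (l : List Gn) (Z : Fin 4 → R) :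
    (fun i => φ (reps l Z i)) = reps l (fun i => φ (Z i)) := by
  induction l generalizing Z with
  | nil => rfl
  | cons g l ih =>
    change (fun i => φ (reps l (rep g Z) i)) = reps l (rep g fun i => φ (Z i))
    rw [ih, ← map_rep]

/-- the degrees of the formulas -/
def dg : Gn → ℕ
  | .T => 19
  | .a => 6
  | .b => 2
  | .s => 6

/-- scaling -/
theorem yv_smul (t : R) (Z : Fin 4 → R) (i : Fin 3) : yv (t • Z) i = t ^ 5 * yv Z i := by
  fin_cases i <;> simp [yv, dU, nU] <;> ring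

theorem rep_smul (g : Gn) (t : R) (Z : Fin 4 → R) : rep g (t • Z) = t ^ dg g • rep g Z := by
  funext i
  cases g <;> fin_cases i <;>
    simp [rep, yv_smul, nX, dX, e1, e2, nY, dY, dg] <;> ring

end Forms

section Homog

variable {K : Type*} [Field K] {σ : Type*}

theorem hom_dU {m : ℕ} {Z : Fin 4 → MvPolynomial σ K} (hZ : ∀ i, (Z i).IsHomogeneous m) :
    (dU Z).IsHomogeneous (5 * m) := by
  have h3 : ∀ i, (Z i ^ 3).IsHomogeneous (m * 3) := fun i => (hZ i).pow 3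
  have e : 5 * m = m * 3 + m * 2 := by ring
  rw [e]
  exact (((h3 0).sub (h3 1)).mul ((hZ 3).pow 2)).sub (((h3 0).sub (h3 2)).mul ((hZ 0).pow 2))

theorem hom_two : (2 : MvPolynomial σ K).IsHomogeneous 0 := by
  rw [← map_ofNat (C : K →+* MvPolynomial σ K) 2]
  exact isHomogeneous_C σ _

theorem hom_three : (3 : MvPolynomial σ K).IsHomogeneous 0 := by
  rw [← map_ofNat (C : K →+* MvPolynomial σ K) 3]
  exact isHomogeneous_C σ _

theorem hom_four : (4 : MvPolynomial σ K).IsHomogeneous 0 := by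
  rw [← map_ofNat (C : K →+* MvPolynomial σ K) 4]
  exact isHomogeneous_C σ _

theorem hom_nU {m : ℕ} {Z : Fin 4 → MvPolynomial σ K} (hZ : ∀ i, (Z i).IsHomogeneous m) :
    (nU Z).IsHomogeneous (4 * m) := by
  have h3 : ∀ i, (Z i ^ 3).IsHomogeneous (m * 3) := fun i => (hZ i).pow 3
  have e : 4 * m = 0 + (m * 3 + m) := by ring
  rw [e]
  exact hom_two.mul ((((h3 0).sub (h3 2)).mul (hZ 0)).sub (((h3 0).sub (h3 1)).mul (hZ 3)))

theorem hom_yv {m : ℕ} {Z : Fin 4 → MvPolynomial σ K} (hZ : ∀ i, (Z i).IsHomogeneous m)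
    (i : Fin 3) : (yv Z i).IsHomogeneous (5 * m) := by
  have e : 5 * m = 4 * m + m := by ring
  fin_cases i
  · exact hom_dU hZ
  · refine (hom_dU hZ).add ?_
    rw [e]
    exact (hom_nU hZ).mul (hZ 0)
  · refine (hom_dU hZ).add ?_
    rw [e]
    exact (hom_nU hZ).mul (hZ 3)

theorem hom_nX {m : ℕ} {Z : Fin 4 → MvPolynomial σ K} (hZ : ∀ i, (Z i).IsHomogeneous m) :
    (nX Z).IsHomogeneous (7 * m) := by
  have e : 7 * m = m + m + 5 * m := by ring
  have h2 : ∀ i, (2 * Z i).IsHomogeneous m := fun i => by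
    have := hom_two.mul (hZ i)
    rwa [zero_add] at this
  rw [e]
  exact (((hZ 1).mul ((hZ 0).add (h2 1))).mul (hom_yv hZ 0)).sub
    (((hZ 0).mul ((h2 0).add (hZ 1))).mul (hom_yv hZ 1))

theorem hom_dX {m : ℕ} {Z : Fin 4 → MvPolynomial σ K} (hZ : ∀ i, (Z i).IsHomogeneous m) :
    (dX Z).IsHomogeneous (6 * m) := by
  have e : 6 * m = m + 5 * m := by ring
  rw [e]
  exact ((hZ 0).sub (hZ 1)).mul ((hom_yv hZ 0).add (hom_yv hZ 1))

theorem hom_dY {m : ℕ} {Z : Fin 4 → MvPolynomial σ K} (hZ : ∀ i, (Z i).IsHomogeneous m) :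
    (dY Z).IsHomogeneous (7 * m) := by
  have e : 7 * m = m * 2 + 5 * m := by ring
  rw [e]
  exact (((hZ 0).sub (hZ 1)).pow 2).mul ((hom_yv hZ 0).add (hom_yv hZ 1))

theorem hom_nY {m : ℕ} {Z : Fin 4 → MvPolynomial σ K} (hZ : ∀ i, (Z i).IsHomogeneous m) :
    (nY Z).IsHomogeneous (12 * m) := by
  have hy := hom_yv hZ
  have h1 : (3 * Z 1 ^ 2 * yv Z 0 ^ 2).IsHomogeneous (12 * m) := by
    have e : 12 * m = 0 + m * 2 + 5 * m * 2 := by ring
    rw [e]
    exact (hom_three.mul ((hZ 1).pow 2)).mul ((hy 0).pow 2)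
  have h3 : (3 * Z 0 ^ 2 * yv Z 1 ^ 2).IsHomogeneous (12 * m) := by
    have e : 12 * m = 0 + m * 2 + 5 * m * 2 := by ring
    rw [e]
    exact (hom_three.mul ((hZ 0).pow 2)).mul ((hy 1).pow 2)
  have h2 : ((Z 0 ^ 2 + 4 * Z 0 * Z 1 + Z 1 ^ 2) * yv Z 1 * yv Z 0).IsHomogeneous (12 * m) := by
    have e : 12 * m = m * 2 + 5 * m + 5 * m := by ring
    rw [e]
    refine (IsHomogeneous.mul ?_ (hy 1)).mul (hy 0)
    refine (((hZ 0).pow 2).add ?_).add ((hZ 1).pow 2)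
    have e : m * 2 = 0 + m + m := by ring
    rw [e]
    exact (hom_four.mul (hZ 0)).mul (hZ 1)
  exact ((h1.sub h2).add h3).neg

theorem hom_e {m : ℕ} {Z : Fin 4 → MvPolynomial σ K} (hZ : ∀ i, (Z i).IsHomogeneous m)
    (i : Fin 3) : (yv Z i * dY Z - nY Z).IsHomogeneous (12 * m) := by
  refine IsHomogeneous.sub ?_ (hom_nY hZ)
  have e : 12 * m = 5 * m + 7 * m := by ring
  rw [e]
  exact (hom_yv hZ i).mul (hom_dY hZ)

theorem hom_rep {m : ℕ} {Z : Fin 4 → MvPolynomial σ K} (hZ : ∀ i, (Z i).IsHomogeneous m)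
    (g : Gn) (i : Fin 4) : (rep g Z i).IsHomogeneous (dg g * m) := by
  have hy := hom_yv hZ
  cases g with
  | T =>
    have e : 19 * m = 7 * m + 12 * m := by ring
    have e' : 19 * m = m + 6 * m + 12 * m := by ring
    fin_cases i
    · change (nX Z * e1 Z).IsHomogeneous (19 * m)
      rw [e]; exact (hom_nX hZ).mul (hom_e hZ 1)
    · change (Z 1 * dX Z * e1 Z).IsHomogeneous (19 * m)
      rw [e']; exact ((hZ 1).mul (hom_dX hZ)).mul (hom_e hZ 1)
    · change (Z 2 * dX Z * e1 Z).IsHomogeneous (19 * m)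
      rw [e']; exact ((hZ 2).mul (hom_dX hZ)).mul (hom_e hZ 1)
    · change (nX Z * e2 Z).IsHomogeneous (19 * m)
      rw [e]; exact (hom_nX hZ).mul (hom_e hZ 2)
  | a =>
    have e : 6 * m = m + 5 * m := by ring
    fin_cases i
    · change (Z 1 * (yv Z 0 - yv Z 1)).IsHomogeneous (6 * m)
      rw [e]; exact (hZ 1).mul ((hy 0).sub (hy 1))
    · change (Z 0 * (yv Z 0 - yv Z 1)).IsHomogeneous (6 * m)
      rw [e]; exact (hZ 0).mul ((hy 0).sub (hy 1))
    · change (Z 2 * (yv Z 0 - yv Z 1)).IsHomogeneous (6 * m)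
      rw [e]; exact (hZ 2).mul ((hy 0).sub (hy 1))
    · change (Z 1 * (yv Z 2 - yv Z 1)).IsHomogeneous (6 * m)
      rw [e]; exact (hZ 1).mul ((hy 2).sub (hy 1))
  | b =>
    have e : 2 * m = m + m := by ring
    fin_cases i
    · change (Z 0 * Z 3).IsHomogeneous (2 * m)
      rw [e]; exact (hZ 0).mul (hZ 3)
    · change (Z 2 * Z 3).IsHomogeneous (2 * m)
      rw [e]; exact (hZ 2).mul (hZ 3)
    · change (Z 1 * Z 3).IsHomogeneous (2 * m)
      rw [e]; exact (hZ 1).mul (hZ 3)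
    · change (Z 0 ^ 2).IsHomogeneous (2 * m)
      rw [mul_comm]; exact (hZ 0).pow 2
  | s =>
    have e : 6 * m = m + 5 * m := by ring
    fin_cases i
    · change (-Z 0 * (yv Z 1 + yv Z 0)).IsHomogeneous (6 * m)
      rw [e]; exact (hZ 0).neg.mul ((hy 1).add (hy 0))
    · change (-Z 1 * (yv Z 1 + yv Z 0)).IsHomogeneous (6 * m)
      rw [e]; exact (hZ 1).neg.mul ((hy 1).add (hy 0))
    · change (-Z 2 * (yv Z 1 + yv Z 0)).IsHomogeneous (6 * m)
      rw [e]; exact (hZ 2).neg.mul ((hy 1).add (hy 0))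
    · change (Z 0 * (yv Z 2 - yv Z 0)).IsHomogeneous (6 * m)
      rw [e]; exact (hZ 0).mul ((hy 2).sub (hy 0))

/-- the degree of a word -/
def dgs : List Gn → ℕ
  | [] => 1
  | g :: l => dgs l * dg g

theorem hom_reps {m : ℕ} {Z : Fin 4 → MvPolynomial σ K} (hZ : ∀ i, (Z i).IsHomogeneous m)
    (l : List Gn) (i : Fin 4) : (reps l Z i).IsHomogeneous (dgs l * m) := by
  induction l generalizing m Z with
  | nil => simpa [reps, dgs] using hZ i
  | cons g l ih =>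
    have := ih (hom_rep hZ g)
    rw [← mul_assoc] at this
    exact this

theorem dg_pos (g : Gn) : 0 < dg g := by cases g <;> simp [dg]
theorem dg_le (g : Gn) : dg g ≤ 19 := by cases g <;> simp [dg]

theorem dgs_pos (l : List Gn) : 0 < dgs l := by
  induction l with
  | nil => simp [dgs]
  | cons g l ih => exact Nat.mul_pos ih (dg_pos g)

theorem dgs_le (l : List Gn) : dgs l ≤ 19 ^ l.length := by
  induction l with
  | nil => simp [dgs]
  | cons g l ih =>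
    rw [List.length_cons, pow_succ]
    exact Nat.mul_le_mul ih (dg_le g)

end Homog

end Pool.Agent.Y212.SG
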