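import Pool.Agent.Y212.SG.Curve

/-!
Words acting on triples of points; generic triples.
-/

set_option autoImplicit false

open WeierstrassCurve MvPolynomial

namespace Pool.Agent.Y212.SG

section Words

variable {F : Type*} [Field F] [DecidableEq F] {W : Affine F}

theorem reps_smul {R : Type*} [CommRing R] (l : List Gn) (t : R) (Z : Fin 4 → R) :
    reps l (t • Z) = t ^ dgs l • reps l Z := by
  induction l generalizing t Z with
  | nil => simp [reps, dgs]
  | cons g l ih =>
    change reps l (rep g (t • Z)) = t ^ (dgs l * dg g) • reps l (rep g Z)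
    rw [rep_smul, ih, ← pow_mul, mul_comm]

/-- All triples met along a word are good. -/
def AllGood : List Gn → (Fin 3 → W.Point) → Prop
  | [], p => Good p
  | g :: l, p => Good p ∧ AllGood l (act g p)

theorem AllGood.good {l : List Gn} {p : Fin 3 → W.Point} (h : AllGood l p) : Good p := by
  cases l with
  | nil => exact h
  | cons g l => exact h.1

theorem AllGood.last {l : List Gn} {p : Fin 3 → W.Point} (h : AllGood l p) :
    Good (acts l p) := by
  induction l generalizing p with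
  | nil => exact h
  | cons g l ih => exact ih h.2

theorem reps_gam (hW : Sh W) (h2 : (2 : F) ≠ 0) (l : List Gn) (p : Fin 3 → W.Point)
    (hp : AllGood l p) : ∃ c : F, c ≠ 0 ∧ reps l (gam p) = c • gam (acts l p) := by
  induction l generalizing p with
  | nil => exact ⟨1, one_ne_zero, by simp [reps]⟩
  | cons g l ih =>
    obtain ⟨c, hc, e⟩ := rep_gam hW h2 g p hp.1
    obtain ⟨c', hc', e'⟩ := ih (act g p) hp.2
    refine ⟨c ^ dgs l * c', mul_ne_zero (pow_ne_zero _ hc) hc', ?_⟩
    change reps l (rep g (gam p)) = _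
    rw [e, reps_smul, e', smul_smul]
    rfl

end Words

theorem aeval_smul_hom {K A σ : Type*} [CommRing K] [CommRing A] [Algebra K A] {d : ℕ}
    {H : MvPolynomial σ K} (hH : H.IsHomogeneous d) (c : A) (v : σ → A) :
    aeval (c • v) H = c ^ d * aeval v H := by
  rw [aeval_def, aeval_def, eval₂_eq, eval₂_eq, Finset.mul_sum]
  refine Finset.sum_congr rfl fun m hm => ?_
  have hd : ∑ i ∈ m.support, m i = d := (hH.degree_eq_sum_deg_support hm).symm
  have : ∏ i ∈ m.support, (c • v) i ^ m i = c ^ d * ∏ i ∈ m.support, v i ^ m i := by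
    simp only [Pi.smul_apply, smul_eq_mul, mul_pow, Finset.prod_mul_distrib]
    rw [Finset.prod_pow_eq_pow_sum, hd]
  rw [this]
  ring

section Trans

variable {K Ω : Type*} [Field K] [Field Ω] [Algebra K Ω]

theorem tb_of {x x' : Fin 3 → Ω} (hx : IsTranscendenceBasis K x)
    (h : ∀ i, IsAlgebraic (Algebra.adjoin K (Set.range x')) (x i)) :
    IsTranscendenceBasis K x' := by
  have h1 : (AlgebraicIndependent.matroid K Ω).Spanning (Set.range x) := by
    have := hx.to_subtype_range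
    rw [← AlgebraicIndependent.matroid_isBase_iff] at this
    exact this.spanning
  have h2 : (AlgebraicIndependent.matroid K Ω).Spanning (Set.range x') := by
    have hsub : Set.range x ⊆ (AlgebraicIndependent.matroid K Ω).closure (Set.range x') := by
      rw [AlgebraicIndependent.matroid_closure_eq]
      rintro _ ⟨i, rfl⟩
      exact h i
    have h3 := h1.superset hsub
    exact (Matroid.closure_spanning_iff (Set.subset_univ _)).1 h3
  rw [AlgebraicIndependent.matroid_spanning_iff] at h2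
  refine Algebra.IsAlgebraic.isTranscendenceBasis_of_lift_le_trdeg_of_finite K x' ?_
  exact hx.lift_cardinalMk_eq_trdeg.le

theorem aeval_ne {x : Fin 3 → Ω} (hx : AlgebraicIndependent K x) (p : MvPolynomial (Fin 3) K)
    (c : Fin 3 → K) (hc : eval c p ≠ 0) : aeval x p ≠ 0 := by
  intro h
  apply hc
  have : p = 0 := hx (by rw [h, map_zero])
  rw [this, map_zero]

end Trans

theorem two_ne {K Ω : Type*} [Field K] [Field Ω] [Algebra K Ω] (h2 : (2 : K) ≠ 0) :
    (2 : Ω) ≠ 0 := by
  intro h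
  apply h2
  apply (algebraMap K Ω).injective
  rw [map_ofNat, map_zero, h]

section Generic

variable {K Ω : Type*} [Field K] [Field Ω] [Algebra K Ω] [DecidableEq Ω] {W : Affine Ω}

/-- Generic triples. -/
structure Gnc (K : Type*) {Ω : Type*} [Field K] [Field Ω] [Algebra K Ω] {W : Affine Ω}
    (p : Fin 3 → W.Point) : Prop where
  ne : ∀ i, p i ≠ 0
  tb : IsTranscendenceBasis K (fun i => xc (p i))

omit [DecidableEq Ω] in
theorem Gnc.good (hW : Sh W) {p : Fin 3 → W.Point} (hp : Gnc K p) : Good p := by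
  refine ⟨hp.ne, ?_, ?_⟩
  · intro i
    have := aeval_ne hp.tb.1 (X i) 1 (by simp)
    simpa using this
  · intro i j hij h
    have := aeval_ne hp.tb.1 (X i ^ 3 - X j ^ 3) (Pi.single i 1) (by simp [hij.symm])
    apply this
    simp only [map_sub, map_pow, aeval_X]
    have e1 := eqn hW _ (hp.ne i)
    have e2 := eqn hW _ (hp.ne j)
    linear_combination h - e1 + e2

theorem x_add_ne (hW : Sh W) (ha : W.a₆ = 1) (h2 : (2 : K) ≠ 0) {p : Fin 3 → W.Point}
    (hp : Gnc K p) : xc (p 0 + p 1) ≠ xc (p 1) := by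
  intro h
  have hg := hp.good hW
  obtain ⟨-, ax, -⟩ := add_coord hW (p 0) (p 1) (hp.ne 0) (hp.ne 1)
    (hg.x_ne hW (show (0 : Fin 3) ≠ 1 by decide))
  have e0 := eqn hW _ (hp.ne 0)
  have e1 := eqn hW _ (hp.ne 1)
  rw [ha] at e0 e1
  rw [h] at ax
  have h4 : (4 : K) ≠ 0 := by
    have : (4 : K) = 2 * 2 := by norm_num
    rw [this]; exact mul_ne_zero h2 h2
  have := aeval_ne hp.tb.1
    (4 * (X 0 ^ 3 + 1) * (X 1 ^ 3 + 1) -
      (X 0 ^ 3 + X 1 ^ 3 + 2 - (X 0 + 2 * X 1) * (X 0 - X 1) ^ 2) ^ 2) (![1, 0, 0])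
    (by
      simp only [map_sub, map_mul, map_add, map_pow, map_one, map_ofNat, eval_X]
      simp only [Matrix.cons_val_zero, Matrix.cons_val_one]
      norm_num
      exact h4)
  apply this
  simp only [map_sub, map_mul, map_add, map_pow, map_one, map_ofNat, aeval_X]
  rw [← e0, ← e1]
  have hx0 : xc (p 0) ^ 3 = yc (p 0) ^ 2 - 1 := by linear_combination -e0
  have hx1 : xc (p 1) ^ 3 = yc (p 1) ^ 2 - 1 := by linear_combination -e1
  rw [hx0, hx1]
  have key : (xc (p 0) + 2 * xc (p 1)) * (xc (p 0) - xc (p 1)) ^ 2 =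
      (yc (p 0) - yc (p 1)) ^ 2 := by linear_combination ax
  rw [key]
  ring

theorem Gnc.act (hW : Sh W) (ha : W.a₆ = 1) (h2 : (2 : K) ≠ 0) {p : Fin 3 → W.Point}
    (hp : Gnc K p) (g : Gn) : Gnc K (act g p) := by
  have hg := hp.good hW
  cases g with
  | a =>
    refine ⟨?_, ?_⟩
    · intro i; fin_cases i
      exacts [hp.ne 1, hp.ne 0, hp.ne 2]
    · have := hp.tb.comp_equiv (Equiv.swap (0 : Fin 3) 1)
      convert this using 1
      funext i; fin_cases i <;> rfl
  | b =>
    refine ⟨?_, ?_⟩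
    · intro i; fin_cases i
      exacts [hp.ne 0, hp.ne 2, hp.ne 1]
    · have := hp.tb.comp_equiv (Equiv.swap (1 : Fin 3) 2)
      convert this using 1
      funext i; fin_cases i <;> rfl
  | s =>
    refine ⟨?_, ?_⟩
    · intro i; fin_cases i
      exacts [hp.ne 0, neg_ne_zero.2 (hp.ne 1), hp.ne 2]
    · have e : (fun i => xc (SG.act .s p i)) = fun i => xc (p i) := by
        funext i; fin_cases i
        exacts [rfl, xc_neg (p 1), rfl]
      rw [e]
      exact hp.tb
  | T =>
    have hxne := x_add_ne hW ha h2 hp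
    obtain ⟨hne, -, -⟩ := add_coord hW (p 0) (p 1) (hp.ne 0) (hp.ne 1)
      (hg.x_ne hW (show (0 : Fin 3) ≠ 1 by decide))
    refine ⟨?_, ?_⟩
    · intro i; fin_cases i
      exacts [hne, hp.ne 1, hp.ne 2]
    · apply tb_of hp.tb
      set x' : Fin 3 → Ω := fun i => xc (SG.act .T p i) with hx'
      set A := Algebra.adjoin K (Set.range x')
      have hmem : ∀ i, IsAlgebraic A (x' i) := fun i =>
        isAlgebraic_algebraMap (⟨x' i, Algebra.subset_adjoin ⟨i, rfl⟩⟩ : A)
      have h1 : IsAlgebraic A (xc (p 1)) := hmem 1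
      have h2' : IsAlgebraic A (xc (p 2)) := hmem 2
      have h0 : IsAlgebraic A (xc (p 0 + p 1)) := hmem 0
      have hy1 : IsAlgebraic A (yc (p 1)) := by
        apply IsAlgebraic.of_pow two_pos
        rw [eqn hW _ (hp.ne 1), ha]
        exact (h1.pow 3).add isAlgebraic_one
      have hy0 : IsAlgebraic A (yc (p 0 + p 1)) := by
        apply IsAlgebraic.of_pow two_pos
        rw [eqn hW _ hne, ha]
        exact (h0.pow 3).add isAlgebraic_one
      have hneg : xc (p 0 + p 1) ≠ xc (-p 1) := by rw [xc_neg]; exact hxne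
      obtain ⟨-, bx, -⟩ := add_coord hW (p 0 + p 1) (-p 1) hne (neg_ne_zero.2 (hp.ne 1)) hneg
      rw [add_neg_cancel_right, xc_neg, yc_neg hW] at bx
      have hd : xc (p 0 + p 1) - xc (p 1) ≠ 0 := sub_ne_zero.2 hxne
      have e : xc (p 0) = ((yc (p 0 + p 1) - -yc (p 1)) ^ 2 - (xc (p 0 + p 1) + xc (p 1)) *
          (xc (p 0 + p 1) - xc (p 1)) ^ 2) * ((xc (p 0 + p 1) - xc (p 1)) ^ 2)⁻¹ := by
        rw [← bx]; field_simp
      have hx0 : IsAlgebraic A (xc (p 0)) := by
        rw [e]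
        exact (((hy0.sub hy1.neg).pow 2).sub ((h0.add h1).mul ((h0.sub h1).pow 2))).mul
          (((h0.sub h1).pow 2).inv)
      intro i; fin_cases i
      exacts [hx0, h1, h2']

theorem Gnc.allGood (hW : Sh W) (ha : W.a₆ = 1) (h2 : (2 : K) ≠ 0) {p : Fin 3 → W.Point}
    (hp : Gnc K p) (l : List Gn) : AllGood l p := by
  induction l generalizing p with
  | nil => exact hp.good hW
  | cons g l ih => exact ⟨hp.good hW, ih (hp.act hW ha h2 g)⟩

theorem Gnc.acts (hW : Sh W) (ha : W.a₆ = 1) (h2 : (2 : K) ≠ 0) {p : Fin 3 → W.Point}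
    (hp : Gnc K p) (l : List Gn) : Gnc K (acts l p) := by
  induction l generalizing p with
  | nil => exact hp
  | cons g l ih => exact ih (hp.act hW ha h2 g)

/-- Setting the first variable to one is injective on homogeneous polynomials. -/
theorem hom_eq_zero {d : ℕ} {H : MvPolynomial (Fin 4) K} (hH : H.IsHomogeneous d)
    {A : Type*} [CommRing A] [Algebra K A] (r : Fin 3 → A) (hr : AlgebraicIndependent K r)
    (h : aeval (![1, r 0, r 1, r 2] : Fin 4 → A) H = 0) : H = 0 := by
  have e1 : aeval (![1, X 0, X 1, X 2] : Fin 4 → MvPolynomial (Fin 3) K) H = 0 := by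
    apply hr
    rw [map_zero, ← AlgHom.comp_apply, comp_aeval]
    rw [← h]
    congr 2
    funext i
    fin_cases i <;> simp
  let Q := FractionRing (MvPolynomial (Fin 4) K)
  let x : Fin 4 → Q := fun i => algebraMap _ _ (X i : MvPolynomial (Fin 4) K)
  have hx0 : x 0 ≠ 0 := by
    simp only [x, ne_eq, FaithfulSMul.algebraMap_eq_zero_iff]
    exact X_ne_zero 0
  have e2 : aeval (![1, x 1 / x 0, x 2 / x 0, x 3 / x 0] : Fin 4 → Q) H = 0 := by
    have := congrArg (aeval (![x 1 / x 0, x 2 / x 0, x 3 / x 0] : Fin 3 → Q)) e1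
    rw [map_zero, ← AlgHom.comp_apply, comp_aeval] at this
    rw [← this]
    congr 2
    funext i
    fin_cases i <;> simp
  have e3 : x = x 0 • (![1, x 1 / x 0, x 2 / x 0, x 3 / x 0] : Fin 4 → Q) := by
    funext i
    fin_cases i
    · simp
    · exact (mul_div_cancel₀ _ hx0).symm
    · exact (mul_div_cancel₀ _ hx0).symm
    · exact (mul_div_cancel₀ _ hx0).symm
  have e4 : aeval x H = 0 := by
    rw [e3, aeval_smul_hom hH, e2, mul_zero]
  have e5 : aeval x H = algebraMap _ Q H := by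
    have : (aeval x : MvPolynomial (Fin 4) K →ₐ[K] Q) = IsScalarTower.toAlgHom K _ Q := by
      apply algHom_ext
      intro i
      simp [x]
    rw [this]; rfl
  rw [e5] at e4
  exact (FaithfulSMul.algebraMap_eq_zero_iff _ _).1 e4

omit [DecidableEq Ω] in
/-- A homogeneous polynomial vanishing at the coordinates of a generic triple is zero. -/
theorem Gnc.eq_zero (hW : Sh W) (ha : W.a₆ = 1) (h2K : (2 : K) ≠ 0) {p : Fin 3 → W.Point}
    (hp : Gnc K p) {d : ℕ} {H : MvPolynomial (Fin 4) K} (hH : H.IsHomogeneous d)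
    (h : aeval (gam p) H = 0) : H = 0 := by
  have hg := hp.good hW
  have h10 := hg.y_sub (show (1 : Fin 3) ≠ 0 by decide)
  have hx0 := hg.x0 0
  set r : Fin 3 → Ω := ![xc (p 1) / xc (p 0), xc (p 2) / xc (p 0),
    (yc (p 2) - yc (p 0)) / (yc (p 1) - yc (p 0))] with hr
  have e : gam p = (xc (p 0) * (yc (p 1) - yc (p 0))) • (![1, r 0, r 1, r 2] : Fin 4 → Ω) := by
    funext i
    fin_cases i
    · change xc (p 0) * (yc (p 1) - yc (p 0)) = _ * 1
      ring
    · change xc (p 1) * (yc (p 1) - yc (p 0)) = _ * (xc (p 1) / xc (p 0))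
      field_simp
    · change xc (p 2) * (yc (p 1) - yc (p 0)) = _ * (xc (p 2) / xc (p 0))
      field_simp
    · change xc (p 0) * (yc (p 2) - yc (p 0)) =
        _ * ((yc (p 2) - yc (p 0)) / (yc (p 1) - yc (p 0)))
      field_simp
  have h' : aeval (![1, r 0, r 1, r 2] : Fin 4 → Ω) H = 0 := by
    rw [e, aeval_smul_hom hH] at h
    exact (mul_eq_zero.1 h).resolve_left (pow_ne_zero _ (mul_ne_zero hx0 h10))
  refine hom_eq_zero hH r (tb_of hp.tb ?_).1 h'
  set A := Algebra.adjoin K (Set.range r)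
  have hmem : ∀ i, IsAlgebraic A (r i) := fun i =>
    isAlgebraic_algebraMap (⟨r i, Algebra.subset_adjoin ⟨i, rfl⟩⟩ : A)
  have ra : IsAlgebraic A (xc (p 1) / xc (p 0)) := hmem 0
  have rb : IsAlgebraic A (xc (p 2) / xc (p 0)) := hmem 1
  have rs : IsAlgebraic A ((yc (p 2) - yc (p 0)) / (yc (p 1) - yc (p 0))) := hmem 2
  set k := xc (p 0) * (yc (p 1) - yc (p 0)) with hk
  have hk0 : k ≠ 0 := mul_ne_zero hx0 h10
  set Z : Fin 4 → Ω := ![1, r 0, r 1, r 2] with hZ
  have hZa : ∀ i, IsAlgebraic A (Z i) := by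
    intro i; fin_cases i
    exacts [isAlgebraic_one, ra, rb, rs]
  have two : IsAlgebraic A (2 : Ω) := by
    have := isAlgebraic_algebraMap (R := A) (A := Ω) 2
    rwa [map_ofNat] at this
  have hdU : IsAlgebraic A (dU Z) := by
    simp only [dU]
    exact ((((hZa 0).pow 3).sub ((hZa 1).pow 3)).mul ((hZa 3).pow 2)).sub
      ((((hZa 0).pow 3).sub ((hZa 2).pow 3)).mul ((hZa 0).pow 2))
  have hnU : IsAlgebraic A (nU Z) := by
    simp only [nU]
    exact two.mul ((((((hZa 0).pow 3).sub ((hZa 2).pow 3))).mul (hZa 0)).sub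
      ((((hZa 0).pow 3).sub ((hZa 1).pow 3)).mul (hZa 3)))
  have w0 : IsAlgebraic A (yv Z 0) := hdU
  have w1 : IsAlgebraic A (yv Z 1) := hdU.add (hnU.mul (hZa 0))
  have hv : ∀ i, yv Z i * k ^ 5 = mu p * yc (p i) := by
    intro i
    rw [← yv_gam hW p hp.ne i, e, yv_smul]
    ring
  have h2 : (2 : Ω) ≠ 0 := two_ne h2K
  have hmu := mu_ne h2 hg
  have e0 := eqn hW _ (hp.ne 0)
  have e1 := eqn hW _ (hp.ne 1)
  rw [ha] at e0 e1
  set a := xc (p 1) / xc (p 0) with hadef
  have hx1 : xc (p 1) = a * xc (p 0) := by rw [hadef]; field_simp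
  set c := mu p / k ^ 5 with hc
  have hc0 : c ≠ 0 := div_ne_zero hmu (pow_ne_zero _ hk0)
  have hv' : ∀ i, yv Z i = c * yc (p i) := by
    intro i
    rw [hc, div_mul_eq_mul_div, ← hv i]
    field_simp
  have ha3 : 1 - a ^ 3 ≠ 0 := by
    intro h3
    apply hg.y2 0 1 (by decide)
    rw [e0, e1, hx1]
    linear_combination xc (p 0) ^ 3 * h3
  have hc2 : IsAlgebraic A (c ^ 2) := by
    have : c ^ 2 = (yv Z 1 ^ 2 - a ^ 3 * yv Z 0 ^ 2) * (1 - a ^ 3)⁻¹ := by
      rw [eq_mul_inv_iff_mul_eq₀ ha3, hv', hv', mul_pow, mul_pow, e0, e1, hx1]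
      ring
    rw [this]
    exact ((w1.pow 2).sub ((ra.pow 3).mul (w0.pow 2))).mul ((isAlgebraic_one.sub (ra.pow 3)).inv)
  have hx0' : IsAlgebraic A (xc (p 0)) := by
    apply IsAlgebraic.of_pow three_pos
    have : xc (p 0) ^ 3 = yv Z 0 ^ 2 * (c ^ 2)⁻¹ - 1 := by
      rw [hv', mul_pow, e0]
      field_simp
      ring
    rw [this]
    exact ((w0.pow 2).mul hc2.inv).sub isAlgebraic_one
  intro i; fin_cases i
  · exact hx0'
  · change IsAlgebraic A (xc (p 1))
    rw [hx1]; exact ra.mul hx0'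
  · change IsAlgebraic A (xc (p 2))
    have : xc (p 2) = xc (p 2) / xc (p 0) * xc (p 0) := by field_simp
    rw [this]; exact rb.mul hx0'

end Generic

universe u

theorem six_ne {K Ω : Type*} [Field K] [Field Ω] [Algebra K Ω] (h6 : (6 : K) ≠ 0) :
    (6 : Ω) ≠ 0 := by
  intro h
  apply h6
  apply (algebraMap K Ω).injective
  rw [map_ofNat, map_zero, h]

/-- `(u, v)` is a nonsingular point of `y² = x³ + e`, `e ≠ 0`. -/
theorem nonsing {F : Type*} [Field F] (h6 : (6 : F) ≠ 0) {W : Affine F} (hW : Sh W)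
    (ha : W.a₆ ≠ 0) {u v : F} (h : v ^ 2 = u ^ 3 + W.a₆) : W.Nonsingular u v := by
  have h2 : (2 : F) ≠ 0 := fun h => h6 (by rw [show (6 : F) = 2 * 3 by norm_num, h, zero_mul])
  have h3 : (3 : F) ≠ 0 := fun h => h6 (by rw [show (6 : F) = 2 * 3 by norm_num, h, mul_zero])
  rw [Affine.nonsingular_iff', Affine.equation_iff, hW.a1, hW.a2, hW.a3, hW.a4]
  refine ⟨by linear_combination h, ?_⟩
  by_contra hcon
  rw [not_or, not_not, not_not] at hcon
  obtain ⟨c1, c2⟩ := hcon
  have hv : v = 0 := by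
    have : 2 * v = 0 := by linear_combination c2
    exact (mul_eq_zero.1 this).resolve_left h2
  have hu : u = 0 := by
    have : 3 * u ^ 2 = 0 := by linear_combination -c1
    exact pow_eq_zero_iff two_ne_zero |>.1 ((mul_eq_zero.1 this).resolve_left h3)
  apply ha
  rw [hv, hu] at h
  linear_combination -h

/-- There are generic triples. -/
theorem exists_gnc (K : Type u) [Field K] (h6 : (6 : K) ≠ 0) :
    ∃ (Ω : Type u) (_ : Field Ω) (_ : Algebra K Ω) (_ : DecidableEq Ω) (W : Affine Ω)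
      (p : Fin 3 → W.Point), Sh W ∧ W.a₆ = 1 ∧ Gnc K p := by
  classical
  let L := FractionRing (MvPolynomial (Fin 3) K)
  let Ω := AlgebraicClosure L
  let x : Fin 3 → L := fun i => algebraMap _ _ (X i : MvPolynomial (Fin 3) K)
  let W : Affine Ω := ⟨0, 0, 0, 0, 1⟩
  have h6' : (6 : Ω) ≠ 0 := six_ne h6
  have hW : Sh W := ⟨rfl, rfl, rfl, rfl⟩
  have hy : ∀ i, ∃ v : Ω, v ^ 2 = algebraMap L Ω (x i) ^ 3 + 1 := fun i =>
    IsAlgClosed.exists_pow_nat_eq _ two_pos
  choose v hv using hy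
  refine ⟨Ω, inferInstance, inferInstance, inferInstance, W,
    fun i => .some _ _ (nonsing h6' hW one_ne_zero (hv i)), hW, rfl,
    fun i => Affine.Point.some_ne_zero _, ?_⟩
  change IsTranscendenceBasis K fun i => algebraMap L Ω (x i)
  have h1 : IsTranscendenceBasis K (X : Fin 3 → MvPolynomial (Fin 3) K) :=
    IsTranscendenceBasis.mvPolynomial (Fin 3) K
  have : Algebra.IsAlgebraic (MvPolynomial (Fin 3) K) L :=
    IsLocalization.isAlgebraic _ (nonZeroDivisors (MvPolynomial (Fin 3) K))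
  have h2 : IsTranscendenceBasis K x := h1.algebraMap_comp (A := L)
  exact h2.algebraMap_comp (A := Ω)


end Pool.Agent.Y212.SG
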