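import Pool.Agent.Y212.SG.Gen

/-!
The heights of the multiples of a point of `y² = x³ + (t³+1)³` over `K(t)`.
-/

set_option autoImplicit false

open WeierstrassCurve Polynomial

namespace Pool.Agent.Y212.SG

section Unimod

variable {R : Type*} [CommRing R]

/-- The three forms are unimodular. -/
theorem unimod_addSub {ξ δ t a b : R} (h6 : IsUnit (6 : R)) (h : a * ξ + b * δ = 1) :
    ∃ α β γ : R, α * (ξ ^ 2 * t ^ 2 - 4 * (ξ + t * δ) * δ) +
      β * (2 * ((ξ + t * δ) * (ξ * t) + 2 * δ ^ 2)) + γ * (ξ - t * δ) ^ 2 = 1 := by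
  -- the ideal generated by the three forms contains the fourth powers of `ξ t`, `ξ + t δ`, `δ`
  let I : Ideal R := Ideal.span {ξ ^ 2 * t ^ 2 - 4 * (ξ + t * δ) * δ,
    2 * ((ξ + t * δ) * (ξ * t) + 2 * δ ^ 2), (ξ - t * δ) ^ 2}
  suffices hI : (1 : R) ∈ I by
    rw [Submodule.mem_span_triple] at hI
    obtain ⟨α, β, γ, e⟩ := hI
    exact ⟨α, β, γ, by simpa [smul_eq_mul] using e⟩
  let W : WeierstrassCurve R := ⟨0, 0, 0, 0, 1⟩
  have hΔ : W.Δ = -432 := by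
    simp [WeierstrassCurve.Δ, WeierstrassCurve.b₂, WeierstrassCurve.b₄, WeierstrassCurve.b₆,
      WeierstrassCurve.b₈, W]
    norm_num
  have hu : IsUnit W.Δ := by
    rw [hΔ, show (-432 : R) = -(6 * 6 * 6 * 2) by norm_num, IsUnit.neg_iff]
    have h2 : IsUnit (2 : R) := isUnit_of_dvd_unit ⟨3, by norm_num⟩ h6
    exact ((h6.mul h6).mul h6).mul h2
  have : W.IsElliptic := ⟨hu⟩
  have key : ∀ i : Fin 3, (![ξ * t, ξ + t * δ, δ] i) ^ 4 ∈ I := by
    intro i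
    rw [← addSubMapCoeff_condition W ![ξ * t, ξ + t * δ, δ] i]
    refine Ideal.sum_mem _ fun j _ => Ideal.mul_mem_left _ _ (Ideal.subset_span ?_)
    fin_cases j
    · left
      simp [WeierstrassCurve.addSubMap, WeierstrassCurve.b₂, WeierstrassCurve.b₄,
        WeierstrassCurve.b₆, WeierstrassCurve.b₈, W]
      ring
    · right; left
      simp [WeierstrassCurve.addSubMap, WeierstrassCurve.b₂, WeierstrassCurve.b₄,
        WeierstrassCurve.b₆, WeierstrassCurve.b₈, W]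
      ring
    · right; right
      simp [WeierstrassCurve.addSubMap, WeierstrassCurve.b₂, WeierstrassCurve.b₄,
        WeierstrassCurve.b₆, WeierstrassCurve.b₈, W]
      ring
  -- unimodularity
  by_contra hcon
  have hne : I ≠ ⊤ := fun h => hcon (h ▸ Submodule.mem_top)
  obtain ⟨M, hM, hIM⟩ := Ideal.exists_le_maximal I hne
  have hp := hM.isPrime
  have k0 : ξ * t ∈ M := hp.mem_of_pow_mem 4 (hIM (key 0))
  have k1 : ξ + t * δ ∈ M := hp.mem_of_pow_mem 4 (hIM (key 1))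
  have k2 : δ ∈ M := hp.mem_of_pow_mem 4 (hIM (key 2))
  have k3 : ξ ∈ M := by
    have := M.sub_mem k1 (M.mul_mem_left t k2)
    simpa using this
  apply hM.ne_top
  rw [Ideal.eq_top_iff_one, ← h]
  exact M.add_mem (M.mul_mem_left a k3) (M.mul_mem_left b k2)

theorem unimod_sym {ξ δ ξ' δ' a b a' b' : R} (h : a * ξ + b * δ = 1)
    (h' : a' * ξ' + b' * δ' = 1) :
    ∃ α β γ : R, α * (ξ * ξ') + β * (ξ * δ' + ξ' * δ) + γ * (δ * δ') = 1 := by
  let I : Ideal R := Ideal.span {ξ * ξ', ξ * δ' + ξ' * δ, δ * δ'}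
  suffices hI : (1 : R) ∈ I by
    rw [Submodule.mem_span_triple] at hI
    obtain ⟨α, β, γ, e⟩ := hI
    exact ⟨α, β, γ, by simpa [smul_eq_mul] using e⟩
  by_contra hcon
  have hne : I ≠ ⊤ := fun h => hcon (h ▸ Submodule.mem_top)
  obtain ⟨M, hM, hIM⟩ := Ideal.exists_le_maximal I hne
  have hp := hM.isPrime
  have m1 : ξ * ξ' ∈ M := hIM (Ideal.subset_span (by simp))
  have m2 : ξ * δ' + ξ' * δ ∈ M := hIM (Ideal.subset_span (by simp))
  have m3 : δ * δ' ∈ M := hIM (Ideal.subset_span (by simp))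
  have hno : ¬ (ξ ∈ M ∧ δ ∈ M) := fun hh => hM.ne_top (by
    rw [Ideal.eq_top_iff_one, ← h]
    exact M.add_mem (M.mul_mem_left a hh.1) (M.mul_mem_left b hh.2))
  have hno' : ¬ (ξ' ∈ M ∧ δ' ∈ M) := fun hh => hM.ne_top (by
    rw [Ideal.eq_top_iff_one, ← h']
    exact M.add_mem (M.mul_mem_left a' hh.1) (M.mul_mem_left b' hh.2))
  rcases hp.mem_or_mem m1 with hx | hx
  · have h1 : ξ' * δ ∈ M := by
      have := M.sub_mem m2 (M.mul_mem_right δ' hx)
      simpa using this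
    rcases hp.mem_or_mem h1 with h2 | h2
    · rcases hp.mem_or_mem m3 with h3 | h3
      · exact hno ⟨hx, h3⟩
      · exact hno' ⟨h2, h3⟩
    · exact hno ⟨hx, h2⟩
  · have h1 : ξ * δ' ∈ M := by
      have := M.sub_mem m2 (M.mul_mem_right δ hx)
      simpa using this
    rcases hp.mem_or_mem h1 with h2 | h2
    · rcases hp.mem_or_mem m3 with h3 | h3
      · exact hno ⟨h2, h3⟩
      · exact hno' ⟨hx, h3⟩
    · exact hno' ⟨hx, h2⟩

/-- Proportional unimodular triples. -/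
theorem unimod_dvd {x y z x' y' z' α β γ : R} (h : α * x + β * y + γ * z = 1)
    (e1 : x' * z = z' * x) (e2 : y' * z = z' * y) : z ∣ z' := by
  refine ⟨α * x' + β * y' + γ * z', ?_⟩
  calc z' = (α * x + β * y + γ * z) * z' := by rw [h, one_mul]
    _ = z * (α * x' + β * y' + γ * z') := by linear_combination -α * e1 - β * e2

end Unimod

section Step

variable {K : Type*} [Field K]

/-- The induction step, on the level of polynomials. -/
theorem step_poly (h6 : (6 : K) ≠ 0) {m : ℕ} (hm : 1 ≤ m) {ξ δ ξ' δ' ξ'' δ'' : K[X]}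
    (hc : IsCoprime ξ δ) (hc' : IsCoprime ξ' δ') (hc'' : IsCoprime ξ'' δ'')
    (hδ' : δ' ≠ 0) (hδ'' : δ'' ≠ 0)
    (d1 : ξ.natDegree = m ^ 2) (d2 : δ.natDegree < m ^ 2)
    (d1' : ξ'.natDegree = (m - 1) ^ 2) (d2' : δ'.natDegree < (m - 1) ^ 2)
    (hS : (ξ'' * δ' + ξ' * δ'') * (ξ - X * δ) ^ 2 =
      δ'' * δ' * (2 * ((ξ + X * δ) * (ξ * X) + 2 * δ ^ 2)))
    (hP : ξ'' * ξ' * (ξ - X * δ) ^ 2 =
      δ'' * δ' * (ξ ^ 2 * X ^ 2 - 4 * (ξ + X * δ) * δ)) :
    ξ''.natDegree = (m + 1) ^ 2 ∧ δ''.natDegree < (m + 1) ^ 2 := by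
  obtain ⟨a, b, hab⟩ := hc
  obtain ⟨a', b', hab'⟩ := hc'
  obtain ⟨a'', b'', hab''⟩ := hc''
  have h6u : IsUnit (6 : K[X]) := by
    have : (6 : K[X]) = C 6 := by rw [map_ofNat]
    rw [this, isUnit_C]
    exact isUnit_iff_ne_zero.2 h6
  obtain ⟨α, β, γ, h1⟩ := unimod_addSub (t := X) h6u hab
  obtain ⟨α', β', γ', h2⟩ := unimod_sym hab'' hab'
  have dv1 : (ξ - X * δ) ^ 2 ∣ δ'' * δ' := unimod_dvd h1 hP hS
  have dv2 : δ'' * δ' ∣ (ξ - X * δ) ^ 2 :=
    unimod_dvd h2 (by rw [mul_comm, ← hP]; ring) (by rw [mul_comm, ← hS]; ring)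
  have hne : δ'' * δ' ≠ 0 := mul_ne_zero hδ'' hδ'
  have hne' : (ξ - X * δ) ^ 2 ≠ 0 := fun h => hne (by rw [h] at dv1; exact zero_dvd_iff.1 dv1)
  obtain ⟨u', hu'⟩ := associated_of_dvd_dvd dv1 dv2
  obtain ⟨u, hu, hu0, hune⟩ : ∃ u : K[X], (ξ - X * δ) ^ 2 * u = δ'' * δ' ∧
      u.natDegree = 0 ∧ u ≠ 0 :=
    ⟨u', hu', natDegree_eq_zero_of_isUnit u'.isUnit, u'.ne_zero⟩
  have eP : ξ'' * ξ' = u * (ξ ^ 2 * X ^ 2 - 4 * (ξ + X * δ) * δ) := by
    apply mul_right_cancel₀ hne'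
    rw [hP, ← hu]; ring
  have eS : ξ'' * δ' + ξ' * δ'' = u * (2 * ((ξ + X * δ) * (ξ * X) + 2 * δ ^ 2)) := by
    apply mul_right_cancel₀ hne'
    rw [hS, ← hu]; ring
  have hξ0 : ξ ≠ 0 := by
    rintro rfl
    rw [natDegree_zero] at d1
    have : 0 < m ^ 2 := by positivity
    omega
  have four0 : (4 : K[X]).natDegree = 0 := by
    rw [show (4 : K[X]) = C 4 by rw [map_ofNat]]; exact natDegree_C _
  have two0 : (2 : K[X]).natDegree = 0 := by
    rw [show (2 : K[X]) = C 2 by rw [map_ofNat]]; exact natDegree_C _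
  have hXδ : (X * δ).natDegree ≤ m ^ 2 := by
    refine natDegree_mul_le.trans ?_
    rw [natDegree_X]; omega
  have hsum : (ξ + X * δ).natDegree ≤ m ^ 2 := (natDegree_add_le _ _).trans (by omega)
  have dP1 : (ξ ^ 2 * X ^ 2).natDegree = 2 * m ^ 2 + 2 := by
    rw [natDegree_mul (pow_ne_zero _ hξ0) (pow_ne_zero _ X_ne_zero), natDegree_pow, natDegree_pow,
      natDegree_X, d1]
  have dP2 : (4 * (ξ + X * δ) * δ).natDegree < 2 * m ^ 2 + 2 := by
    have h3 : (4 * (ξ + X * δ) * δ).natDegree ≤ (4 * (ξ + X * δ)).natDegree + δ.natDegree :=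
      natDegree_mul_le
    have h4 : (4 * (ξ + X * δ)).natDegree ≤ (4 : K[X]).natDegree + (ξ + X * δ).natDegree :=
      natDegree_mul_le
    omega
  have dP : (ξ ^ 2 * X ^ 2 - 4 * (ξ + X * δ) * δ).natDegree = 2 * m ^ 2 + 2 := by
    rw [natDegree_sub_eq_left_of_natDegree_lt (by rw [dP1]; exact dP2), dP1]
  have hPne : ξ ^ 2 * X ^ 2 - 4 * (ξ + X * δ) * δ ≠ 0 := by
    intro h
    rw [h, natDegree_zero] at dP
    omega
  have hprod : (ξ'' * ξ').natDegree = 2 * m ^ 2 + 2 := by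
    rw [eP, natDegree_mul hune hPne, hu0, dP, zero_add]
  have hprodne : ξ'' * ξ' ≠ 0 := by rw [eP]; exact mul_ne_zero hune hPne
  have hξ''0 : ξ'' ≠ 0 := left_ne_zero_of_mul hprodne
  have hξ'0 : ξ' ≠ 0 := right_ne_zero_of_mul hprodne
  rw [natDegree_mul hξ''0 hξ'0, d1'] at hprod
  have hsq : (m - 1) ^ 2 + (m + 1) ^ 2 = 2 * m ^ 2 + 2 := by
    obtain ⟨k, rfl⟩ : ∃ k, m = k + 1 := ⟨m - 1, by omega⟩
    simp only [Nat.add_sub_cancel]
    ring
  have hdeg : ξ''.natDegree = (m + 1) ^ 2 := by omega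
  refine ⟨hdeg, ?_⟩
  by_contra hlt
  rw [not_lt] at hlt
  have dS : (u * (2 * ((ξ + X * δ) * (ξ * X) + 2 * δ ^ 2))).natDegree ≤ 2 * m ^ 2 + 1 := by
    have h3 : (ξ * X).natDegree ≤ m ^ 2 + 1 := natDegree_mul_le.trans (by rw [natDegree_X, d1])
    have h4 : ((ξ + X * δ) * (ξ * X)).natDegree ≤ 2 * m ^ 2 + 1 :=
      natDegree_mul_le.trans (by omega)
    have h5 : (2 * δ ^ 2).natDegree ≤ 2 * m ^ 2 + 1 := by
      refine natDegree_mul_le.trans ?_
      have : (δ ^ 2).natDegree ≤ 2 * δ.natDegree := natDegree_pow_le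
      omega
    have h7 : ((ξ + X * δ) * (ξ * X) + 2 * δ ^ 2).natDegree ≤ 2 * m ^ 2 + 1 :=
      (natDegree_add_le _ _).trans (by omega)
    have h8 : (2 * ((ξ + X * δ) * (ξ * X) + 2 * δ ^ 2)).natDegree ≤ 2 * m ^ 2 + 1 :=
      natDegree_mul_le.trans (by omega)
    exact natDegree_mul_le.trans (by omega)
  rw [← eS] at dS
  have d5 : (ξ' * δ'').natDegree = (m - 1) ^ 2 + δ''.natDegree := by
    rw [natDegree_mul hξ'0 hδ'', d1']
  have d6 : (ξ'' * δ').natDegree < (ξ' * δ'').natDegree := by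
    refine natDegree_mul_le.trans_lt ?_
    rw [d5, hdeg]
    omega
  rw [natDegree_add_eq_right_of_natDegree_lt d6, d5] at dS
  omega

end Step

section AddSub

variable {F : Type*} [Field F] [DecidableEq F] {W : Affine F}

/-- The sum and the product of the first coordinates of `P + Q` and `P - Q`. -/
theorem add_sub (hW : Sh W) (P Q : W.Point) (hP : P ≠ 0) (hQ : Q ≠ 0) (h : xc P ≠ xc Q) :
    P + Q ≠ 0 ∧ P - Q ≠ 0 ∧
    (xc (P + Q) + xc (P - Q)) * (xc P - xc Q) ^ 2 =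
      2 * ((xc P + xc Q) * (xc P * xc Q) + 2 * W.a₆) ∧
    xc (P + Q) * xc (P - Q) * (xc P - xc Q) ^ 2 =
      xc P ^ 2 * xc Q ^ 2 - 4 * W.a₆ * (xc P + xc Q) := by
  obtain ⟨n1, a1, -⟩ := add_coord hW P Q hP hQ h
  obtain ⟨n2, a2, -⟩ := add_coord hW P (-Q) hP (neg_ne_zero.2 hQ) (by rwa [xc_neg])
  rw [← sub_eq_add_neg] at n2 a2
  rw [xc_neg, yc_neg hW] at a2
  have e0 := eqn hW _ hP
  have e1 := eqn hW _ hQ
  have hd : xc P - xc Q ≠ 0 := sub_ne_zero.2 h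
  refine ⟨n1, n2, ?_, ?_⟩
  · linear_combination a1 + a2 + 2 * e0 + 2 * e1
  · apply mul_right_cancel₀ (pow_ne_zero 2 hd)
    have : xc (P + Q) * xc (P - Q) * (xc P - xc Q) ^ 2 * (xc P - xc Q) ^ 2 =
        (xc (P + Q) * (xc P - xc Q) ^ 2) * (xc (P - Q) * (xc P - xc Q) ^ 2) := by ring
    rw [this, a1, a2]
    have hy0 : yc P ^ 2 = xc P ^ 3 + W.a₆ := e0
    have hy1 : yc Q ^ 2 = xc Q ^ 3 + W.a₆ := e1
    have : ((yc P - yc Q) ^ 2 - (xc P + xc Q) * (xc P - xc Q) ^ 2) *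
        ((yc P - -yc Q) ^ 2 - (xc P + xc Q) * (xc P - xc Q) ^ 2) =
        (yc P ^ 2 - yc Q ^ 2) ^ 2 - 2 * ((xc P + xc Q) * (xc P - xc Q) ^ 2) *
          (yc P ^ 2 + yc Q ^ 2) + ((xc P + xc Q) * (xc P - xc Q) ^ 2) ^ 2 := by ring
    rw [this, hy0, hy1]
    ring

end AddSub

section Pts

variable (K : Type*) [Field K]

/-- the field `K(t)` -/
abbrev FF : Type _ := FractionRing K[X]

noncomputable instance : DecidableEq (FF K) := Classical.decEq _

/-- the variable -/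
noncomputable def tt : FF K := algebraMap K[X] _ X
/-- `t³ + 1` -/
noncomputable def DD : FF K := tt K ^ 3 + 1
/-- the curve `y² = x³ + (t³ + 1)³` -/
noncomputable def WD : Affine (FF K) := ⟨0, 0, 0, 0, DD K ^ 3⟩

theorem sh_WD : Sh (WD K) := ⟨rfl, rfl, rfl, rfl⟩

theorem inj_FF : Function.Injective (algebraMap K[X] (FF K)) := IsFractionRing.injective _ _

theorem DD_eq : DD K = algebraMap K[X] _ (X ^ 3 + 1) := by
  rw [DD, tt, map_add, map_pow, map_one]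

theorem X3_ne : (X ^ 3 + 1 : K[X]) ≠ 0 := by
  have := X_pow_add_C_ne_zero (R := K) (n := 3) (by norm_num) 1
  simpa using this

theorem X3_deg : (X ^ 3 + 1 : K[X]).natDegree = 3 := by
  have := natDegree_X_pow_add_C (R := K) (n := 3) (r := 1)
  simpa using this

theorem DD_ne : DD K ≠ 0 := by
  rw [DD_eq]
  intro h
  exact X3_ne K (inj_FF K (by rw [h, map_zero]))

variable {K} in
/-- the point `((t³+1) t, (t³+1)²)` -/
noncomputable def QQ (h6 : (6 : K) ≠ 0) : (WD K).Point :=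
  .some (DD K * tt K) (DD K ^ 2) (nonsing (six_ne h6) (sh_WD K)
    (pow_ne_zero 3 (DD_ne K)) (by change _ = _ + DD K ^ 3; rw [DD]; ring))

variable {K}

/-- `x(P) = D ξ / δ` in lowest terms, with `deg ξ = m²` and `deg δ < m²`. -/
structure RepH (m : ℕ) (P : (WD K).Point) (ξ δ : K[X]) : Prop where
  ne : P ≠ 0
  cop : IsCoprime ξ δ
  dne : δ ≠ 0
  eq : xc P * algebraMap K[X] (FF K) δ = DD K * algebraMap K[X] (FF K) ξ
  d1 : ξ.natDegree = m ^ 2
  d2 : δ.natDegree < m ^ 2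

theorem exists_frac (P : (WD K).Point) : ∃ ξ δ : K[X], IsCoprime ξ δ ∧ δ ≠ 0 ∧
    xc P * algebraMap K[X] (FF K) δ = DD K * algebraMap K[X] (FF K) ξ := by
  obtain ⟨a, b, hab, h⟩ :=
    IsFractionRing.exists_reduced_fraction (A := K[X]) (K := FF K) (xc P / DD K)
  refine ⟨a, b, isRelPrime_iff_isCoprime.1 hab, nonZeroDivisors.coe_ne_zero b, ?_⟩
  have hb : algebraMap K[X] (FF K) b ≠ 0 := by
    intro h
    exact nonZeroDivisors.coe_ne_zero b (inj_FF K (by rw [h, map_zero]))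
  rw [IsFractionRing.mk'_eq_div] at h
  have hD := DD_ne K
  field_simp at h
  linear_combination -h

theorem RepH.x_ne {m : ℕ} (hm : 2 ≤ m) {P : (WD K).Point} {ξ δ : K[X]} (h : RepH m P ξ δ)
    (h6 : (6 : K) ≠ 0) : xc P ≠ xc (QQ h6) := by
  intro hx
  have e := h.eq
  rw [hx] at e
  have e2 : tt K * algebraMap K[X] (FF K) δ = algebraMap K[X] (FF K) ξ := by
    apply mul_left_cancel₀ (DD_ne K)
    rw [← e]
    change _ = DD K * tt K * _
    ring
  rw [tt, ← map_mul] at e2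
  have e3 : X * δ = ξ := inj_FF K e2
  have hu : IsUnit δ := by
    have := h.cop
    rw [← e3] at this
    have h2 : IsCoprime δ δ := this.of_mul_left_right
    exact isCoprime_self.1 h2
  have h1 := h.d1
  rw [← e3, natDegree_mul X_ne_zero h.dne, natDegree_X, natDegree_eq_zero_of_isUnit hu] at h1
  nlinarith

theorem RepH.step (h6 : (6 : K) ≠ 0) {m : ℕ} (hm : 2 ≤ m) {P : (WD K).Point} {ξ δ ξ' δ' : K[X]}
    (h : RepH m P ξ δ) (h' : RepH (m - 1) (P - QQ h6) ξ' δ') :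
    ∃ ξ'' δ'' : K[X], RepH (m + 1) (P + QQ h6) ξ'' δ'' := by
  have hQ : QQ h6 ≠ 0 := Affine.Point.some_ne_zero _
  obtain ⟨n1, n2, hs, hp⟩ := add_sub (sh_WD K) P (QQ h6) h.ne hQ (h.x_ne hm h6)
  obtain ⟨ξ'', δ'', hc, hd, e''⟩ := exists_frac (P + QQ h6)
  have e := h.eq
  have e' := h'.eq
  have hxQ : xc (QQ h6) = DD K * tt K := rfl
  have ha6 : (WD K).a₆ = DD K ^ 3 := rfl
  rw [hxQ, ha6] at hs hp
  have hD := DD_ne K
  have htt : algebraMap K[X] (FF K) X = tt K := rfl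
  have hS : (ξ'' * δ' + ξ' * δ'') * (ξ - X * δ) ^ 2 =
      δ'' * δ' * (2 * ((ξ + X * δ) * (ξ * X) + 2 * δ ^ 2)) := by
    apply inj_FF K
    apply mul_left_cancel₀ (pow_ne_zero 3 hD)
    simp only [map_mul, map_add, map_sub, map_pow, map_ofNat, htt]
    generalize algebraMap K[X] (FF K) ξ = x at *
    generalize algebraMap K[X] (FF K) δ = d at *
    generalize algebraMap K[X] (FF K) ξ' = x' at *
    generalize algebraMap K[X] (FF K) δ' = d' at *
    generalize algebraMap K[X] (FF K) ξ'' = x'' at *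
    generalize algebraMap K[X] (FF K) δ'' = d'' at *
    calc DD K ^ 3 * ((x'' * d' + x' * d'') * (x - tt K * d) ^ 2)
        = ((DD K * x'') * d' + (DD K * x') * d'') * ((DD K * x) - DD K * tt K * d) ^ 2 := by ring
      _ = d'' * d' * d ^ 2 * ((xc (P + QQ h6) + xc (P - QQ h6)) * (xc P - DD K * tt K) ^ 2) := by
          rw [← e, ← e', ← e'']; ring
      _ = d'' * d' * (2 * ((xc P * d + DD K * tt K * d) * ((xc P * d) * (DD K * tt K)) +
            2 * DD K ^ 3 * d ^ 2)) := by rw [hs]; ring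
      _ = _ := by rw [e]; ring
  have hP : ξ'' * ξ' * (ξ - X * δ) ^ 2 =
      δ'' * δ' * (ξ ^ 2 * X ^ 2 - 4 * (ξ + X * δ) * δ) := by
    apply inj_FF K
    apply mul_left_cancel₀ (pow_ne_zero 4 hD)
    simp only [map_mul, map_add, map_sub, map_pow, map_ofNat, htt]
    generalize algebraMap K[X] (FF K) ξ = x at *
    generalize algebraMap K[X] (FF K) δ = d at *
    generalize algebraMap K[X] (FF K) ξ' = x' at *
    generalize algebraMap K[X] (FF K) δ' = d' at *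
    generalize algebraMap K[X] (FF K) ξ'' = x'' at *
    generalize algebraMap K[X] (FF K) δ'' = d'' at *
    calc DD K ^ 4 * (x'' * x' * (x - tt K * d) ^ 2)
        = (DD K * x'') * (DD K * x') * ((DD K * x) - DD K * tt K * d) ^ 2 := by ring
      _ = d'' * d' * d ^ 2 * (xc (P + QQ h6) * xc (P - QQ h6) * (xc P - DD K * tt K) ^ 2) := by
          rw [← e, ← e', ← e'']; ring
      _ = d'' * d' * ((xc P * d) ^ 2 * (DD K * tt K) ^ 2 -
            4 * DD K ^ 3 * (xc P * d + DD K * tt K * d) * d) := by rw [hp]; ring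
      _ = _ := by rw [e]; ring
  obtain ⟨r1, r2⟩ := step_poly h6 (by omega) h.cop h'.cop hc h'.dne hd h.d1 h.d2 h'.d1 h'.d2 hS hP
  exact ⟨ξ'', δ'', n1, hc, hd, e'', r1, r2⟩

theorem repH_one (h6 : (6 : K) ≠ 0) : RepH 1 (QQ h6) X 1 := by
  refine ⟨Affine.Point.some_ne_zero _, isCoprime_one_right, one_ne_zero, ?_, by simp, by simp⟩
  rw [map_one, mul_one]
  rfl

theorem repH_two (h6 : (6 : K) ≠ 0) :
    RepH 2 (QQ h6 + QQ h6) (X ^ 4 - C 8 * X) (C 4 * (X ^ 3 + 1)) := by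
  have h2 : (2 : K) ≠ 0 := fun h => h6 (by rw [show (6 : K) = 2 * 3 by norm_num, h, zero_mul])
  have h3 : (3 : K) ≠ 0 := fun h => h6 (by rw [show (6 : K) = 2 * 3 by norm_num, h, mul_zero])
  have h4 : (4 : K) ≠ 0 := by rw [show (4 : K) = 2 * 2 by norm_num]; exact mul_ne_zero h2 h2
  have h9 : (9 : K) ≠ 0 := by rw [show (9 : K) = 3 * 3 by norm_num]; exact mul_ne_zero h3 h3
  have h2F : (2 : FF K) ≠ 0 := two_ne h2
  have hD := DD_ne K
  have hadd : QQ h6 + QQ h6 ≠ 0 ∧ xc (QQ h6 + QQ h6) * 4 = tt K ^ 4 - 8 * tt K := by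
    have hy : DD K ^ 2 ≠ (WD K).negY (DD K * tt K) (DD K ^ 2) := by
      intro h
      have h5 : (WD K).negY (DD K * tt K) (DD K ^ 2) = -DD K ^ 2 := by
        simp only [Affine.negY, (sh_WD K).a1, (sh_WD K).a3]
        ring
      rw [h5] at h
      have : 2 * DD K ^ 2 = 0 := by linear_combination h
      exact (mul_ne_zero h2F (pow_ne_zero 2 hD)) this
    have h5 : DD K ^ 2 - (WD K).negY (DD K * tt K) (DD K ^ 2) = 2 * DD K ^ 2 := by
      simp only [Affine.negY, (sh_WD K).a1, (sh_WD K).a3]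
      ring
    rw [QQ, Affine.Point.add_self_of_Y_ne hy]
    refine ⟨Affine.Point.some_ne_zero _, ?_⟩
    simp only [xc, Affine.addX, Affine.slope_of_Y_ne rfl hy, h5, (sh_WD K).a1, (sh_WD K).a2,
      (sh_WD K).a4]
    have hD3 : tt K ^ 3 = DD K - 1 := by rw [DD]; ring
    field_simp
    linear_combination 32 * DD K ^ 4 * tt K * hD3
  refine ⟨hadd.1, ?_, ?_, ?_, ?_, ?_⟩
  · refine ⟨C (9⁻¹) * X ^ 2, -C (9⁻¹ * 4⁻¹) * (X ^ 3 - 9), ?_⟩
    have e1 : (C (9⁻¹) : K[X]) * C 9 = 1 := by rw [← C_mul, inv_mul_cancel₀ h9, C_1]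
    have e2 : (C (9⁻¹ * 4⁻¹) : K[X]) * C 4 = C (9⁻¹) := by
      rw [← C_mul, mul_assoc, inv_mul_cancel₀ h4, mul_one]
    have e3 : (C 8 : K[X]) = 8 := map_ofNat _ _
    have e4 : (C 9 : K[X]) = 9 := map_ofNat _ _
    rw [e4] at e1
    rw [e3]
    linear_combination e1 - (X ^ 3 - 9) * (X ^ 3 + 1) * e2
  · exact mul_ne_zero (C_ne_zero.2 h4) (X3_ne K)
  · rw [map_mul, ← DD_eq, map_sub, map_mul, map_pow]
    have e3 : (C 8 : K[X]) = 8 := map_ofNat _ _
    have e4 : (C 4 : K[X]) = 4 := map_ofNat _ _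
    rw [e3, e4, map_ofNat, map_ofNat]
    change _ = DD K * (tt K ^ 4 - 8 * tt K)
    rw [← hadd.2]
    ring
  · have : (X ^ 4 - C 8 * X : K[X]).natDegree = 4 := by compute_degree!
    rw [this]
    norm_num
  · rw [natDegree_C_mul h4, X3_deg]
    norm_num

theorem exists_repH (h6 : (6 : K) ≠ 0) (m : ℕ) (hm : 1 ≤ m) :
    ∃ ξ δ : K[X], RepH m (m • QQ h6) ξ δ := by
  have key : ∀ n : ℕ, (∃ ξ δ : K[X], RepH (n + 1) ((n + 1) • QQ h6) ξ δ) ∧
      ∃ ξ δ : K[X], RepH (n + 2) ((n + 2) • QQ h6) ξ δ := by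
    intro n
    induction n with
    | zero =>
      refine ⟨⟨X, 1, ?_⟩, ⟨X ^ 4 - C 8 * X, C 4 * (X ^ 3 + 1), ?_⟩⟩
      · rw [zero_add, one_nsmul]; exact repH_one h6
      · rw [zero_add, two_nsmul]; exact repH_two h6
    | succ n ih =>
      obtain ⟨⟨ξ', δ', h'⟩, ξ, δ, h⟩ := ih
      refine ⟨⟨ξ, δ, h⟩, ?_⟩
      have := h.step h6 (by omega) (ξ' := ξ') (δ' := δ') (by
        have e : (n + 2) • QQ h6 - QQ h6 = (n + 1) • QQ h6 := by
          rw [succ_nsmul (QQ h6) (n + 1), add_sub_cancel_right]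
        rw [e]
        exact h')
      obtain ⟨ξ'', δ'', h''⟩ := this
      refine ⟨ξ'', δ'', ?_⟩
      rw [← succ_nsmul] at h''
      exact h''
  obtain ⟨k, rfl⟩ : ∃ k, m = k + 1 := ⟨m - 1, by omega⟩
  exact (key k).1

end Pts

end Pool.Agent.Y212.SG
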