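import Pool.Agent.Y212.SG.Gen
import Pool.Agent.TH147.DM.Hom

/-!
Rational maps written without common factors.
-/

set_option autoImplicit false

open MvPolynomial

namespace Pool.Agent.Y212.SG

section Red

variable {K : Type*} [Field K] {σ ι : Type*}

/-- A tuple of forms of degree `d` without common factor. -/
structure IsRat (d : ℕ) (F : ι → MvPolynomial σ K) : Prop where
  homogeneous : ∀ i, (F i).IsHomogeneous d
  coprime : ∀ g : MvPolynomial σ K, (∀ i, g ∣ F i) → IsUnit g

theorem red_dvd {d : ℕ} {F : ι → MvPolynomial σ K} (hF : IsRat d F) {i0 : ι} (h0 : F i0 ≠ 0)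
    (H : ι → MvPolynomial σ K) (hc : ∀ i j, H i * F j = H j * F i) :
    ∃ h, ∀ i, H i = h * F i := by
  obtain ⟨a, b, c, hab, ha, hb⟩ :=
    UniqueFactorizationMonoid.exists_reduced_factors (F i0) h0 (H i0)
  have hc0 : c ≠ 0 := by
    rintro rfl
    rw [zero_mul] at ha
    exact h0 ha.symm
  have hunit : IsUnit a := by
    apply hF.coprime
    intro j
    have h1 := hc i0 j
    rw [← ha, ← hb] at h1
    have h2 : b * F j = H j * a := by
      apply mul_left_cancel₀ hc0
      linear_combination h1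
    exact hab.dvd_of_dvd_mul_left ⟨H j, by rw [h2]; ring⟩
  obtain ⟨u, hu⟩ := hunit
  refine ⟨b * ↑u⁻¹, fun j => ?_⟩
  apply mul_right_cancel₀ h0
  rw [← hc i0 j, ← hb, ← ha, ← hu]
  have : (u : MvPolynomial σ K) * ↑u⁻¹ = 1 := Units.mul_inv u
  linear_combination (-(c * b * F j)) * this

theorem red_le {d m : ℕ} {F : ι → MvPolynomial σ K} (hF : IsRat d F)
    {H : ι → MvPolynomial σ K} (hH : ∀ i, (H i).IsHomogeneous m) {i0 : ι} (h0 : H i0 ≠ 0)
    (hF0 : F i0 ≠ 0) (hc : ∀ i j, H i * F j = H j * F i) : d ≤ m := by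
  obtain ⟨h, hh⟩ := red_dvd hF hF0 H hc
  have h1 : h * F i0 ≠ 0 := by rw [← hh]; exact h0
  obtain ⟨e, -, he2, he3⟩ := Pool.Agent.TH147.DM.Hom.homog_of_mul (p := h) (q := F i0) (D := m)
    (by rw [← hh]; exact hH i0) h1
  rw [(hF.homogeneous i0).inj_right he2 hF0]
  omega

theorem exists_red [Fintype ι] {m : ℕ} {H : ι → MvPolynomial σ K}
    (hH : ∀ i, (H i).IsHomogeneous m) {i0 : ι} (h0 : H i0 ≠ 0) :
    ∃ (e : ℕ) (F : ι → MvPolynomial σ K) (g : MvPolynomial σ K), IsRat e F ∧ g ≠ 0 ∧
      ∀ i, H i = g * F i := by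
  classical
  let _ : NormalizedGCDMonoid (MvPolynomial σ K) := Classical.arbitrary _
  obtain ⟨F, hg, hg1⟩ := Finset.extract_gcd H (s := Finset.univ) ⟨i0, Finset.mem_univ _⟩
  set G := Finset.univ.gcd H with hG
  have hG0 : G ≠ 0 := by
    intro h
    apply h0
    rw [hg i0 (Finset.mem_univ _), h, zero_mul]
  have hF0 : F i0 ≠ 0 := by
    intro h
    apply h0
    rw [hg i0 (Finset.mem_univ _), h, mul_zero]
  obtain ⟨e, hGe, hg0e, heD⟩ := Pool.Agent.TH147.DM.Hom.homog_of_mul (p := G) (q := F i0) (D := m)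
    (by rw [← hg i0 (Finset.mem_univ _)]; exact hH i0) (mul_ne_zero hG0 hF0)
  refine ⟨m - e, F, G, ⟨?_, ?_⟩, hG0, fun i => hg i (Finset.mem_univ _)⟩
  · intro i
    by_cases hi : F i = 0
    · rw [hi]; exact isHomogeneous_zero _ _ _
    · obtain ⟨e', h1, h2, -⟩ := Pool.Agent.TH147.DM.Hom.homog_of_mul (p := G) (q := F i) (D := m)
        (by rw [← hg i (Finset.mem_univ _)]; exact hH i) (mul_ne_zero hG0 hi)
      rwa [h1.inj_right hGe hG0] at h2
  · intro h hh
    apply isUnit_of_dvd_one
    rw [← hg1]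
    exact Finset.dvd_gcd fun i _ => hh i

/-- `f^n`, without removing common factors -/
noncomputable def itr (f : σ → MvPolynomial σ K) : ℕ → σ → MvPolynomial σ K
  | 0 => X
  | n + 1 => fun i => bind₁ f (itr f n i)

theorem hom_itr {d : ℕ} {f : σ → MvPolynomial σ K} (hf : ∀ i, (f i).IsHomogeneous d) (n : ℕ)
    (i : σ) : (itr f n i).IsHomogeneous (d ^ n) := by
  induction n with
  | zero => rw [pow_zero]; exact isHomogeneous_X K i
  | succ n ih =>
    have := ih.aeval f hf
    rw [pow_succ, mul_comm]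
    exact this

/-- The degree of `f^n` is `e`. -/
def HasDeg (f : σ → MvPolynomial σ K) (n e : ℕ) : Prop :=
  ∃ (g : MvPolynomial σ K) (F : σ → MvPolynomial σ K), g ≠ 0 ∧ IsRat e F ∧
    ∀ i, itr f n i = g * F i

theorem HasDeg.unique {f : σ → MvPolynomial σ K} {n e e' : ℕ} (h : HasDeg f n e)
    (h' : HasDeg f n e') {i0 : σ} (h0 : itr f n i0 ≠ 0) : e = e' := by
  obtain ⟨g, F, hg, hF, hi⟩ := h
  obtain ⟨g', F', hg', hF', hi'⟩ := h'
  have hc : ∀ i j, F i * F' j = F j * F' i := by
    intro i j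
    apply mul_left_cancel₀ (mul_ne_zero hg hg')
    have e1 := hi i
    have e2 := hi j
    have e3 := hi' i
    have e4 := hi' j
    calc g * g' * (F i * F' j) = (g * F i) * (g' * F' j) := by ring
      _ = (g * F j) * (g' * F' i) := by rw [← e1, ← e2, ← e3, ← e4]; ring
      _ = _ := by ring
  have hF0 : F i0 ≠ 0 := by
    intro h
    apply h0
    rw [hi, h, mul_zero]
  have hF0' : F' i0 ≠ 0 := by
    intro h
    apply h0
    rw [hi', h, mul_zero]
  apply le_antisymm
  · exact red_le hF hF'.homogeneous hF0' hF0 (fun i j => by linear_combination -hc i j)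
  · exact red_le hF' hF.homogeneous hF0 hF0' hc

theorem homog_comp_aeval {τ : Type*} {d : ℕ} (hd : 0 < d) {f : τ → MvPolynomial σ K}
    (hf : ∀ i, (f i).IsHomogeneous d) (H : MvPolynomial τ K) (j : ℕ) :
    homogeneousComponent (d * j) (aeval f H) = aeval f (homogeneousComponent j H) := by
  conv_lhs => rw [← sum_homogeneousComponent H]
  rw [map_sum, map_sum]
  have h1 : ∀ i, homogeneousComponent (d * j) (aeval f (homogeneousComponent i H)) =
      if i = j then aeval f (homogeneousComponent i H) else 0 := by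
    intro i
    have := (homogeneousComponent_isHomogeneous i H).aeval f hf
    rw [homogeneousComponent_of_mem this]
    simp only [Nat.mul_right_inj hd.ne', eq_comm]
  rw [Finset.sum_congr rfl fun i _ => h1 i, Finset.sum_ite_eq']
  split_ifs with h
  · rfl
  · rw [Finset.mem_range, not_lt] at h
    rw [homogeneousComponent_eq_zero j H (by omega), map_zero]

end Red

end Pool.Agent.Y212.SG
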