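import Pool.Agent.Y212.SG.Hgt
import Pool.Agent.Y212.SG.Red

/-!
Evaluation of the iterates at triples of points, and the lower bound for the degrees.
-/

set_option autoImplicit false

open WeierstrassCurve

namespace Pool.Agent.Y212.SG

section Itr

variable {K Ω : Type*} [Field K] [Field Ω] [Algebra K Ω] [DecidableEq Ω] {W : Affine Ω}

omit [DecidableEq Ω] in
theorem aeval_reps (l : List Gn) (Z : Fin 4 → Ω) (i : Fin 4) :
    MvPolynomial.aeval Z (reps l (MvPolynomial.X : Fin 4 → MvPolynomial (Fin 4) K) i) =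
      reps l Z i := by
  have h := congrFun (map_reps (MvPolynomial.aeval Z : MvPolynomial (Fin 4) K →ₐ[K] Ω).toRingHom l
    (MvPolynomial.X : Fin 4 → MvPolynomial (Fin 4) K)) i
  have e : (fun i => (MvPolynomial.aeval Z : MvPolynomial (Fin 4) K →ₐ[K] Ω).toRingHom
      (MvPolynomial.X i : MvPolynomial (Fin 4) K)) = Z := by
    funext j
    change MvPolynomial.aeval Z (MvPolynomial.X j : MvPolynomial (Fin 4) K) = Z j
    rw [MvPolynomial.aeval_X]
  rw [e] at h
  exact h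

/-- evaluation of a reduced form of a word -/
theorem eval_red (hW : Sh W) (h2 : (2 : Ω) ≠ 0) {f : Fin 4 → MvPolynomial (Fin 4) K}
    {g0 : MvPolynomial (Fin 4) K} {l : List Gn}
    (hf : ∀ i, reps l (MvPolynomial.X : Fin 4 → MvPolynomial (Fin 4) K) i = g0 * f i)
    (p : Fin 3 → W.Point) (hp : AllGood l p) :
    ∃ c : Ω, c ≠ 0 ∧ ∀ i, MvPolynomial.aeval (gam p) (f i) = c * gam (acts l p) i := by
  obtain ⟨c, hc, e⟩ := reps_gam hW h2 l p hp
  have e' : ∀ i, MvPolynomial.aeval (gam p) g0 * MvPolynomial.aeval (gam p) (f i) =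
      c * gam (acts l p) i := by
    intro i
    rw [← map_mul, ← hf i, aeval_reps, e]
    rfl
  have hg : MvPolynomial.aeval (gam p) g0 ≠ 0 := by
    intro h
    have := e' 0
    rw [h, zero_mul] at this
    exact mul_ne_zero hc (gam_ne hp.last 0) this.symm
  refine ⟨c / MvPolynomial.aeval (gam p) g0, div_ne_zero hc hg, fun i => ?_⟩
  rw [div_mul_eq_mul_div, ← e' i]
  field_simp

theorem eval_itr (hW : Sh W) (h2 : (2 : Ω) ≠ 0) {f : Fin 4 → MvPolynomial (Fin 4) K} {d : ℕ}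
    (hd : ∀ i, (f i).IsHomogeneous d) {g0 : MvPolynomial (Fin 4) K} {l : List Gn}
    (hf : ∀ i, reps l (MvPolynomial.X : Fin 4 → MvPolynomial (Fin 4) K) i = g0 * f i)
    (n : ℕ) (p : Fin 3 → W.Point) (hp : ∀ k < n, AllGood l ((acts l)^[k] p)) :
    ∃ c : Ω, c ≠ 0 ∧ ∀ i, MvPolynomial.aeval (gam p) (itr f n i) =
      c * gam ((acts l)^[n] p) i := by
  induction n generalizing p with
  | zero =>
    refine ⟨1, one_ne_zero, fun i => ?_⟩
    simp [itr]
  | succ n ih =>
    obtain ⟨c, hc, e⟩ := eval_red hW h2 hf p (hp 0 (by omega))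
    obtain ⟨c', hc', e'⟩ := ih (acts l p) (fun k hk => by
      have := hp (k + 1) (by omega)
      rwa [Function.iterate_succ_apply] at this)
    refine ⟨c ^ d ^ n * c', mul_ne_zero (pow_ne_zero _ hc) hc', fun i => ?_⟩
    rw [Function.iterate_succ_apply, mul_assoc, ← e' i]
    have h1 : MvPolynomial.aeval (gam p) (itr f (n + 1) i) =
        MvPolynomial.aeval (fun j => MvPolynomial.aeval (gam p) (f j)) (itr f n i) := by
      change MvPolynomial.aeval (gam p) (MvPolynomial.bind₁ f (itr f n i)) = _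
      rw [MvPolynomial.aeval_bind₁]
    have h3 : (fun j => MvPolynomial.aeval (gam p) (f j)) = c • gam (acts l p) := by
      funext j
      rw [e j]; rfl
    rw [h1, h3, aeval_smul_hom (hom_itr hd n i)]

end Itr

section Trip

open Polynomial

variable {K : Type*} [Field K]

/-- the triple `(a Q, b Q, c Q)` -/
noncomputable def trip (h6 : (6 : K) ≠ 0) (a b c : ℕ) : Fin 3 → (WD K).Point :=
  ![a • QQ h6, b • QQ h6, c • QQ h6]

theorem RepH.xne {m : ℕ} (hm : 1 ≤ m) {P : (WD K).Point} {ξ δ : K[X]} (h : RepH m P ξ δ) :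
    xc P ≠ 0 := by
  intro h0
  have e := h.eq
  rw [h0, zero_mul, eq_comm, mul_eq_zero] at e
  have e1 : ξ = 0 := inj_FF K (by rw [e.resolve_left (DD_ne K), map_zero])
  have := h.d1
  rw [e1, natDegree_zero] at this
  have : 0 < m ^ 2 := by positivity
  omega

theorem deg_aux {m m' : ℕ} {P P' : (WD K).Point} {ξ δ ξ' δ' : K[X]} (h : RepH m P ξ δ)
    (h' : RepH m' P' ξ' δ') (hm' : 1 ≤ m') (e : xc P ^ 3 = xc P' ^ 3) : m ≤ m' := by
  have e1 : ξ ^ 3 * δ' ^ 3 = ξ' ^ 3 * δ ^ 3 := by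
    apply inj_FF K
    apply mul_left_cancel₀ (pow_ne_zero 3 (DD_ne K))
    simp only [map_mul, map_pow]
    have a1 := h.eq
    have a2 := h'.eq
    calc DD K ^ 3 * (algebraMap K[X] (FF K) ξ ^ 3 * algebraMap K[X] (FF K) δ' ^ 3)
        = (DD K * algebraMap K[X] (FF K) ξ) ^ 3 * algebraMap K[X] (FF K) δ' ^ 3 := by ring
      _ = xc P ^ 3 * (algebraMap K[X] (FF K) δ ^ 3 * algebraMap K[X] (FF K) δ' ^ 3) := by
          rw [← a1]; ring
      _ = (xc P' * algebraMap K[X] (FF K) δ') ^ 3 * algebraMap K[X] (FF K) δ ^ 3 := by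
          rw [e]; ring
      _ = _ := by rw [a2]; ring
  have hcop : IsCoprime (ξ ^ 3) (δ ^ 3) := h.cop.pow
  have hdvd : ξ ^ 3 ∣ ξ' ^ 3 := hcop.dvd_of_dvd_mul_right ⟨δ' ^ 3, e1.symm⟩
  have hξ' : ξ' ≠ 0 := by
    rintro rfl
    have := h'.d1
    rw [natDegree_zero] at this
    have : 0 < m' ^ 2 := by positivity
    omega
  have := natDegree_le_of_dvd hdvd (pow_ne_zero 3 hξ')
  rw [natDegree_pow, natDegree_pow, h.d1, h'.d1] at this
  exact Nat.pow_le_pow_iff_left (two_ne_zero) |>.1 (by omega)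

theorem y2_ne (h6 : (6 : K) ≠ 0) {a b : ℕ} (ha : 1 ≤ a) (hb : 1 ≤ b) (hab : a ≠ b) :
    yc (a • QQ h6) ^ 2 ≠ yc (b • QQ h6) ^ 2 := by
  intro h
  obtain ⟨ξ, δ, r⟩ := exists_repH h6 a ha
  obtain ⟨ξ', δ', r'⟩ := exists_repH h6 b hb
  rw [eqn (sh_WD K) _ r.ne, eqn (sh_WD K) _ r'.ne, add_left_inj] at h
  exact hab (le_antisymm (deg_aux r r' hb h) (deg_aux r' r ha h.symm))

theorem good_trip (h6 : (6 : K) ≠ 0) {a b c : ℕ} (ha : 1 ≤ a) (hb : 1 ≤ b) (hc : 1 ≤ c)
    (hab : a ≠ b) (hac : a ≠ c) (hbc : b ≠ c) : Good (trip h6 a b c) := by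
  obtain ⟨ξ, δ, r⟩ := exists_repH h6 a ha
  obtain ⟨ξ', δ', r'⟩ := exists_repH h6 b hb
  obtain ⟨ξ'', δ'', r''⟩ := exists_repH h6 c hc
  refine ⟨?_, ?_, ?_⟩
  · intro i; fin_cases i
    exacts [r.ne, r'.ne, r''.ne]
  · intro i; fin_cases i
    exacts [r.xne ha, r'.xne hb, r''.xne hc]
  · intro i j hij
    have h1 := y2_ne h6 ha hb hab
    have h2 := y2_ne h6 ha hc hac
    have h3 := y2_ne h6 hb hc hbc
    fin_cases i <;> fin_cases j
    exacts [absurd rfl hij, h1, h2, h1.symm, absurd rfl hij, h3, h2.symm, h3.symm, absurd rfl hij]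

theorem act_a_trip (h6 : (6 : K) ≠ 0) (a b c : ℕ) : act .a (trip h6 a b c) = trip h6 b a c := rfl
theorem act_b_trip (h6 : (6 : K) ≠ 0) (a b c : ℕ) : act .b (trip h6 a b c) = trip h6 a c b := rfl
theorem act_T_trip (h6 : (6 : K) ≠ 0) (a b c : ℕ) :
    act .T (trip h6 a b c) = trip h6 (a + b) b c := by
  rw [trip, act_T, trip, add_nsmul]

theorem acts_fw_trip (h6 : (6 : K) ≠ 0) (a b c : ℕ) :
    acts fw (trip h6 a b c) = trip h6 (a + b + c) (b + c) c := by
  simp only [fw, acts_cons, acts_nil, act_a_trip, act_b_trip, act_T_trip]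
  congr 1
  ring

theorem allGood_trip (h6 : (6 : K) ≠ 0) {a b c : ℕ} (hc : 1 ≤ c) (hb : c < b) (ha : b + c < a) :
    AllGood fw (trip h6 a b c) := by
  simp only [fw, AllGood, act_a_trip, act_b_trip, act_T_trip]
  refine ⟨?_, ?_, ?_, ?_, ?_, ?_, ?_⟩ <;> apply good_trip <;> omega

theorem iterate_trip (h6 : (6 : K) ≠ 0) (n : ℕ) :
    (acts fw)^[n] (trip h6 4 2 1) = trip h6 (4 + 2 * n + n * (n + 1) / 2) (2 + n) 1 := by
  rw [trip, iterate_fw, trip]
  congr 1
  · rw [add_nsmul, add_nsmul, one_nsmul]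
    congr 2
    rw [mul_nsmul]
  · congr 1
    rw [add_nsmul, one_nsmul]

theorem allGood_iterate (h6 : (6 : K) ≠ 0) (n : ℕ) :
    AllGood fw ((acts fw)^[n] (trip h6 4 2 1)) := by
  rw [iterate_trip]
  apply allGood_trip <;> omega

theorem trip_good' (h6 : (6 : K) ≠ 0) (n : ℕ) :
    Good ((acts fw)^[n] (trip h6 4 2 1)) := (allGood_iterate h6 n).good

/-- **The lower bound** for the degree of the iterates. -/
theorem lower (h6 : (6 : K) ≠ 0) : ∃ B : ℕ, ∀ (n e : ℕ) (f : Fin 4 → MvPolynomial (Fin 4) K)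
    (d : ℕ) (g0 : MvPolynomial (Fin 4) K), (∀ i, (f i).IsHomogeneous d) →
    (∀ i, reps fw (MvPolynomial.X : Fin 4 → MvPolynomial (Fin 4) K) i = g0 * f i) →
    HasDeg f n e →
    (4 + 2 * n + n * (n + 1) / 2) ^ 2 ≤ e * B + (2 + n) ^ 2 := by
  have h2K : (2 : K) ≠ 0 := fun h => h6 (by rw [show (6 : K) = 2 * 3 by norm_num, h, zero_mul])
  have h2 : (2 : FF K) ≠ 0 := two_ne h2K
  set q := trip h6 4 2 1 with hq
  obtain ⟨b, hb⟩ := IsLocalization.exist_integer_multiples_of_finite (nonZeroDivisors K[X]) (gam q)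
  choose u hu using hb
  have hb0 : algebraMap K[X] (FF K) b ≠ 0 := by
    intro h
    exact nonZeroDivisors.coe_ne_zero b (inj_FF K (by rw [h, map_zero]))
  refine ⟨Finset.univ.sup fun i => (u i).natDegree, ?_⟩
  set B := Finset.univ.sup fun i => (u i).natDegree with hB
  intro n e f d g0 hd hf hdeg
  obtain ⟨g, F, hg, hF, hi⟩ := hdeg
  obtain ⟨c, hc, hev⟩ := eval_itr (sh_WD K) h2 hd hf n q (fun k _ => allGood_iterate h6 k)
  set v : Fin 4 → K[X] := fun i => MvPolynomial.aeval u (F i) with hv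
  have hvdeg : ∀ i, (v i).natDegree ≤ e * B := fun i =>
    MvPolynomial.aeval_natDegree_le (F i) (hF.homogeneous i).totalDegree_le u
      (fun j => Finset.le_sup (f := fun i => (u i).natDegree) (Finset.mem_univ j))
  -- the values of `F` at `gam q`
  have hlast : Good ((acts fw)^[n] q) := trip_good' h6 n
  have hgF : ∀ i, MvPolynomial.aeval (gam q) g * MvPolynomial.aeval (gam q) (F i) =
      c * gam ((acts fw)^[n] q) i := by
    intro i
    rw [← map_mul, ← hi i, hev i]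
  have hg0 : MvPolynomial.aeval (gam q) g ≠ 0 := by
    intro h
    have := hgF 0
    rw [h, zero_mul] at this
    exact mul_ne_zero hc (gam_ne hlast 0) this.symm
  have hval : ∀ i, algebraMap K[X] (FF K) (v i) =
      algebraMap K[X] (FF K) b ^ e * MvPolynomial.aeval (gam q) (F i) := by
    intro i
    rw [← aeval_smul_hom (hF.homogeneous i)]
    have h3 : algebraMap K[X] (FF K) b • gam q = fun j => algebraMap K[X] (FF K) (u j) := by
      funext j
      rw [hu j, Pi.smul_apply, smul_eq_mul, Algebra.smul_def]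
    rw [h3, hv]
    exact (MvPolynomial.aeval_algebraMap_apply (FF K) u (F i)).symm
  obtain ⟨k, hk, hkv⟩ : ∃ k : FF K, k ≠ 0 ∧ ∀ i, algebraMap K[X] (FF K) (v i) =
      k * gam ((acts fw)^[n] q) i := by
    refine ⟨algebraMap K[X] (FF K) b ^ e * (c / MvPolynomial.aeval (gam q) g),
      mul_ne_zero (pow_ne_zero _ hb0) (div_ne_zero hc hg0), fun i => ?_⟩
    rw [hval i, mul_assoc]
    congr 1
    rw [div_mul_eq_mul_div, ← hgF i]
    field_simp
  rw [hq, iterate_trip] at hkv hlast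
  set m0 := 4 + 2 * n + n * (n + 1) / 2 with hm0
  set m1 := 2 + n with hm1
  obtain ⟨ξ, δ, r⟩ := exists_repH h6 m0 (by omega)
  obtain ⟨ξ', δ', r'⟩ := exists_repH h6 m1 (by omega)
  have k0 : algebraMap K[X] (FF K) (v 0) = k * (xc (m0 • QQ h6) *
      (yc (m1 • QQ h6) - yc (m0 • QQ h6))) := hkv 0
  have k1 : algebraMap K[X] (FF K) (v 1) = k * (xc (m1 • QQ h6) *
      (yc (m1 • QQ h6) - yc (m0 • QQ h6))) := hkv 1
  have hv0 : v 0 ≠ 0 := by
    intro h
    have := hkv 0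
    rw [h, map_zero] at this
    exact mul_ne_zero hk (gam_ne hlast 0) this.symm
  have key : v 1 * (ξ * δ') = v 0 * (ξ' * δ) := by
    apply inj_FF K
    apply mul_left_cancel₀ (DD_ne K)
    simp only [map_mul]
    have a1 := r.eq
    have a2 := r'.eq
    rw [k0, k1]
    generalize algebraMap K[X] (FF K) ξ = x at *
    generalize algebraMap K[X] (FF K) δ = d at *
    generalize algebraMap K[X] (FF K) ξ' = x' at *
    generalize algebraMap K[X] (FF K) δ' = d' at *
    generalize yc (m1 • QQ h6) - yc (m0 • QQ h6) = w at *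
    linear_combination (-k * xc (m1 • QQ h6) * w * d') * a1 + (k * xc (m0 • QQ h6) * w * d) * a2
  have hdvd : ξ ∣ v 0 * ξ' := by
    have : ξ ∣ (v 0 * ξ') * δ := ⟨v 1 * δ', by linear_combination -key⟩
    exact r.cop.dvd_of_dvd_mul_right this
  have hξ' : ξ' ≠ 0 := by
    rintro rfl
    have := r'.d1
    rw [natDegree_zero] at this
    have : 0 < m1 ^ 2 := by positivity
    omega
  have h4 := natDegree_le_of_dvd hdvd (mul_ne_zero hv0 hξ')
  rw [natDegree_mul hv0 hξ', r.d1, r'.d1] at h4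
  exact h4.trans (Nat.add_le_add_right (hvdeg 0) _)

end Trip

end Pool.Agent.Y212.SG
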