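import Pool.Agent.Y212.SG.Low

/-!
A birational map of `ℙ³` whose iterates have degrees growing at least like `n⁴` and subexponentially.
-/

set_option autoImplicit false

open WeierstrassCurve MvPolynomial

namespace Pool.Agent.Y212.SG

universe u

variable {K : Type u} [Field K]

theorem algInd_of_gnc {Ω : Type*} [Field Ω] [Algebra K Ω] [DecidableEq Ω] {W : Affine Ω}
    (hW : Sh W) (ha : W.a₆ = 1) (h2 : (2 : K) ≠ 0) {p p' : Fin 3 → W.Point}
    (hp' : Gnc K p') {f : Fin 4 → MvPolynomial (Fin 4) K} {d : ℕ}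
    (hf : ∀ i, (f i).IsHomogeneous d) {c : Ω} (hc : c ≠ 0)
    (hev : ∀ i, aeval (gam p) (f i) = c * gam p' i) : AlgebraicIndependent K f := by
  have hd : 0 < d := by
    by_contra h0
    obtain rfl : d = 0 := by omega
    have hC : ∀ i, ∃ a : K, f i = C a := by
      intro i
      have h1 := (hf i).totalDegree_le
      exact ⟨_, (totalDegree_eq_zero_iff_eq_C.1 (by omega))⟩
    choose a haf using hC
    have e0 : algebraMap K Ω (a 0) = c * gam p' 0 := by
      rw [← hev 0, haf 0, aeval_C]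
    have e1 : algebraMap K Ω (a 1) = c * gam p' 1 := by
      rw [← hev 1, haf 1, aeval_C]
    have hhom : (C (a 1) * X 0 - C (a 0) * X 1 : MvPolynomial (Fin 4) K).IsHomogeneous 1 :=
      (isHomogeneous_C_mul_X _ _).sub (isHomogeneous_C_mul_X _ _)
    have hz := hp'.eq_zero hW ha h2 hhom (by
      simp only [map_sub, map_mul, aeval_C, aeval_X]
      rw [e0, e1]; ring)
    have h3 := congrArg (eval (Pi.single 1 1 : Fin 4 → K)) hz
    simp at h3
    have h4 := gam_ne (hp'.good hW) 0
    rw [h3, map_zero] at e0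
    exact mul_ne_zero hc h4 e0.symm
  rw [algebraicIndependent_iff]
  intro H hH
  rw [← sum_homogeneousComponent H]
  apply Finset.sum_eq_zero
  intro j _
  have h1 := homog_comp_aeval hd hf H j
  rw [hH, map_zero] at h1
  have h2' := congrArg (aeval (gam p)) h1
  rw [map_zero, ← AlgHom.comp_apply, comp_aeval] at h2'
  have h3 : (fun i => aeval (gam p) (f i)) = c • gam p' := by
    funext i
    rw [hev i]; rfl
  rw [h3, aeval_smul_hom (homogeneousComponent_isHomogeneous j H)] at h2'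
  exact hp'.eq_zero hW ha h2 (homogeneousComponent_isHomogeneous j H)
    ((mul_eq_zero.1 h2'.symm).resolve_left (pow_ne_zero _ hc))

theorem main (h6 : (6 : K) ≠ 0) :
    ∃ (d : ℕ) (f : Fin 4 → MvPolynomial (Fin 4) K), IsRat d f ∧ AlgebraicIndependent K f ∧
      ∃ e : ℕ → ℕ, (∀ n m, HasDeg f n m ↔ m = e n) ∧
        (∀ n, e n ≤ 19 ^ (36 * Nat.sqrt (n + 1) + 130)) ∧
        ∃ B : ℕ, ∀ n, (4 + 2 * n + n * (n + 1) / 2) ^ 2 ≤ e n * B + (2 + n) ^ 2 := by
  have h2 : (2 : K) ≠ 0 := fun h => h6 (by rw [show (6 : K) = 2 * 3 by norm_num, h, zero_mul])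
  obtain ⟨Ω, _, _, _, W, p, hW, ha, hp⟩ := exists_gnc K h6
  have h2Ω : (2 : Ω) ≠ 0 := two_ne h2
  -- the map
  have hXh : ∀ i : Fin 4, (X i : MvPolynomial (Fin 4) K).IsHomogeneous 1 := isHomogeneous_X K
  have hne : ∀ l : List Gn, reps l (X : Fin 4 → MvPolynomial (Fin 4) K) 0 ≠ 0 := by
    intro l h
    obtain ⟨c, hc, e⟩ := reps_gam hW h2Ω l p (hp.allGood hW ha h2 l)
    have h1 := aeval_reps (K := K) l (gam p) 0
    rw [h, map_zero, e] at h1
    exact mul_ne_zero hc (gam_ne ((hp.acts hW ha h2 l).good hW) 0) h1.symm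
  obtain ⟨d, f, g0, hf, hg0, hfi⟩ := exists_red (hom_reps hXh fw) (hne fw)
  have hgen : ∀ n, Gnc K ((acts fw)^[n] p) := by
    intro n
    rw [← acts_pw]
    exact hp.acts hW ha h2 _
  have hev : ∀ n, ∃ c : Ω, c ≠ 0 ∧ ∀ i, aeval (gam p) (itr f n i) =
      c * gam ((acts fw)^[n] p) i := fun n =>
    eval_itr hW h2Ω hf.homogeneous hfi n p (fun k _ => (hgen k).allGood hW ha h2 fw)
  have hit0 : ∀ n, itr f n 0 ≠ 0 := by
    intro n h
    obtain ⟨c, hc, e⟩ := hev n
    have := e 0
    rw [h, map_zero] at this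
    exact mul_ne_zero hc (gam_ne ((hgen n).good hW) 0) this.symm
  have hex : ∀ n, ∃ e, HasDeg f n e := by
    intro n
    obtain ⟨e, F, g, hF, hg, hi⟩ := exists_red (hom_itr hf.homogeneous n) (hit0 n)
    exact ⟨e, g, F, hg, hF, hi⟩
  choose e he using hex
  obtain ⟨B, hB⟩ := lower (K := K) h6
  refine ⟨d, f, hf, ?_, e, ?_, ?_, B, fun n => hB n (e n) f d g0 hf.homogeneous hfi (he n)⟩
  · obtain ⟨c, hc, hci⟩ := eval_red hW h2Ω hfi p (hp.allGood hW ha h2 fw)
    exact algInd_of_gnc hW ha h2 (hp.acts hW ha h2 fw) hf.homogeneous hc hci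
  · intro n m
    constructor
    · intro h
      exact h.unique (he n) (hit0 n)
    · rintro rfl
      exact he n
  · intro n
    obtain ⟨g, F, hg, hF, hi⟩ := he n
    obtain ⟨c, hc, hci⟩ := hev n
    obtain ⟨c', hc', e'⟩ := reps_gam hW h2Ω (pw n) p (hp.allGood hW ha h2 (pw n))
    rw [acts_pw] at e'
    have hFv : ∀ i, aeval (gam p) g * aeval (gam p) (F i) = c * gam ((acts fw)^[n] p) i := by
      intro i
      rw [← map_mul, ← hi i, hci i]
    have hg0' : aeval (gam p) g ≠ 0 := by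
      intro h
      have := hFv 0
      rw [h, zero_mul] at this
      exact mul_ne_zero hc (gam_ne ((hgen n).good hW) 0) this.symm
    have hHv : ∀ i, aeval (gam p) (reps (pw n) (X : Fin 4 → MvPolynomial (Fin 4) K) i) =
        c' * gam ((acts fw)^[n] p) i := by
      intro i
      rw [aeval_reps, e']; rfl
    have hcross : ∀ i j, reps (pw n) (X : Fin 4 → MvPolynomial (Fin 4) K) i * F j =
        reps (pw n) (X : Fin 4 → MvPolynomial (Fin 4) K) j * F i := by
      intro i j
      rw [← sub_eq_zero]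
      have hh : (reps (pw n) (X : Fin 4 → MvPolynomial (Fin 4) K) i * F j -
          reps (pw n) (X : Fin 4 → MvPolynomial (Fin 4) K) j * F i).IsHomogeneous
          (dgs (pw n) * 1 + e n) :=
        ((hom_reps hXh (pw n) i).mul (hF.homogeneous j)).sub
          ((hom_reps hXh (pw n) j).mul (hF.homogeneous i))
      refine hp.eq_zero hW ha h2 hh ?_
      rw [map_sub, map_mul, map_mul, hHv, hHv]
      apply mul_left_cancel₀ hg0'
      rw [mul_zero]
      linear_combination (c' * gam ((acts fw)^[n] p) i) * hFv j -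
        (c' * gam ((acts fw)^[n] p) j) * hFv i
    have hF0 : F 0 ≠ 0 := by
      intro h
      apply hit0 n
      rw [hi, h, mul_zero]
    have h7 := red_le hF (hom_reps hXh (pw n)) (hne (pw n)) hF0 hcross
    rw [mul_one] at h7
    exact (h7.trans (dgs_le _)).trans (Nat.pow_le_pow_right (by norm_num) (len_pw n))

end Pool.Agent.Y212.SG
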